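import Mathlib

/-!
Queens domination, part A: from a dominating set with `(n-1)/2` queens to an exact system.
-/

set_option autoImplicit false

namespace Pool.Agent.Helper69.Queens

open Finset

/-- number of elements of `D` on which `f` takes the value `v` -/
def cnt (D : Finset (ℤ × ℤ)) (f : ℤ × ℤ → ℤ) (v : ℤ) : ℕ := (D.filter (fun q => f q = v)).card

/-- row, difference diagonal and sum diagonal coverage of the square `(x,y)`. -/
def cov (D : Finset (ℤ × ℤ)) (x y : ℤ) : ℕ :=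
  cnt D (fun q => q.2) y + cnt D (fun q => q.2 - q.1) (y - x) + cnt D (fun q => q.1 + q.2) (x + y)

lemma sum_cnt (D : Finset (ℤ × ℤ)) (f : ℤ × ℤ → ℤ) (k : ℤ) (W : Finset ℤ) :
    ∑ y ∈ W, cnt D f (y + k) = ∑ q ∈ D, (if f q - k ∈ W then 1 else 0) := by
  unfold cnt
  simp_rw [Finset.card_filter]
  rw [Finset.sum_comm]
  refine Finset.sum_congr rfl (fun q _ => ?_)
  have : ∀ y ∈ W, (if f q = y + k then (1:ℕ) else 0) = if y = f q - k then 1 else 0 := by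
    intro y _
    congr 1
    exact propext ⟨fun h => by omega, fun h => by omega⟩
  rw [Finset.sum_congr rfl this, Finset.sum_ite_eq']

lemma sum_cov (D : Finset (ℤ × ℤ)) (x : ℤ) (W : Finset ℤ) :
    ∑ y ∈ W, cov D x y = ∑ q ∈ D, ((if q.2 ∈ W then 1 else 0)
      + (if q.2 - q.1 + x ∈ W then 1 else 0) + (if q.1 + q.2 - x ∈ W then 1 else 0)) := by
  unfold cov
  rw [Finset.sum_add_distrib, Finset.sum_add_distrib, Finset.sum_add_distrib,
    Finset.sum_add_distrib]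
  have h1 := sum_cnt D (fun q => q.2) 0 W
  have h2 := sum_cnt D (fun q => q.2 - q.1) (-x) W
  have h3 := sum_cnt D (fun q => q.1 + q.2) x W
  simp only [add_zero, sub_zero, sub_neg_eq_add] at h1 h2 h3
  rw [h1]
  congr 1
  · congr 1
  · rw [← h3]
    refine Finset.sum_congr rfl (fun y _ => ?_)
    rw [add_comm]

lemma ind_le (t a δ w : ℤ) :
    (if t + a ∈ Ico w (w + δ) then 1 else 0) + (if t + (a + δ) ∈ Ico w (w + δ) then 1 else 0)
      ≤ (1:ℕ) := by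
  simp only [Finset.mem_Ico]
  split_ifs <;> omega

/-- Spencer's count on two empty columns `a`, `a+δ` and a window of `δ` rows -/
lemma spencer (D : Finset (ℤ × ℤ)) (a δ w : ℤ) (hδ : 0 < δ)
    (hcov : ∀ y ∈ Ico w (w + δ), 1 ≤ cov D a y ∧ 1 ≤ cov D (a + δ) y) :
    2 * δ ≤ 2 * ((D.filter (fun q => q.2 ∈ Ico w (w + δ))).card : ℤ) + 2 * (D.card : ℤ) ∧
    (2 * ((D.filter (fun q => q.2 ∈ Ico w (w + δ))).card : ℤ) + 2 * (D.card : ℤ) ≤ 2 * δ →
      (∀ y ∈ Ico w (w + δ), cov D a y = 1 ∧ cov D (a + δ) y = 1) ∧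
      (∀ q ∈ D, ((if q.2 - q.1 + a ∈ Ico w (w + δ) then 1 else 0) +
        (if q.2 - q.1 + (a + δ) ∈ Ico w (w + δ) then 1 else 0) = (1:ℕ)) ∧
        ((if q.1 + q.2 - a ∈ Ico w (w + δ) then 1 else 0) +
        (if q.1 + q.2 - (a + δ) ∈ Ico w (w + δ) then 1 else 0) = (1:ℕ)))) := by
  set W := Ico w (w + δ) with hW
  have hWc : (W.card : ℤ) = δ := by
    rw [hW, Int.card_Ico]; simp; omega
  have hs := sum_cov D a W
  have ht := sum_cov D (a + δ) W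
  have hlow : ∑ y ∈ W, 2 ≤ ∑ y ∈ W, (cov D a y + cov D (a + δ) y) :=
    Finset.sum_le_sum (fun y hy => by have := hcov y hy; omega)
  have hl2 : ∑ y ∈ W, 2 = 2 * W.card := by simp [mul_comm]
  have hpt : ∀ q ∈ D, ((if q.2 ∈ W then 1 else 0) + (if q.2 - q.1 + a ∈ W then 1 else 0) +
      (if q.1 + q.2 - a ∈ W then 1 else 0)) + ((if q.2 ∈ W then 1 else 0) +
      (if q.2 - q.1 + (a + δ) ∈ W then 1 else 0) + (if q.1 + q.2 - (a + δ) ∈ W then 1 else 0))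
      ≤ (if q.2 ∈ W then 2 else 0) + (2:ℕ) := by
    intro q _
    have h1 := ind_le (q.2 - q.1) a δ w
    have h2 := ind_le (q.1 + q.2) (- (a + δ)) δ w
    rw [show q.1 + q.2 + (- (a + δ) + δ) = q.1 + q.2 - a by ring,
      show q.1 + q.2 + - (a + δ) = q.1 + q.2 - (a + δ) by ring] at h2
    rw [← hW] at h1 h2
    split_ifs at h1 h2 ⊢ <;> omega
  have hup := Finset.sum_le_sum hpt
  rw [Finset.sum_add_distrib] at hup hlow
  have hcf : ∑ q ∈ D, ((if q.2 ∈ W then 2 else 0) + (2:ℕ))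
      = 2 * (D.filter (fun q => q.2 ∈ W)).card + 2 * D.card := by
    rw [Finset.sum_add_distrib, Finset.card_filter, Finset.mul_sum]
    congr 1
    · refine Finset.sum_congr rfl (fun q _ => ?_)
      split_ifs <;> rfl
    · simp [mul_comm]
  rw [hcf] at hup
  rw [hl2, hs, ht] at hlow
  refine ⟨by zify at hlow hup; linarith, fun heq => ?_⟩
  have e0 : 2 * (D.filter (fun q => q.2 ∈ W)).card + 2 * D.card ≤ 2 * W.card := by
    zify; linarith
  constructor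
  · -- all covers are one
    have hsum : ∑ y ∈ W, (cov D a y + cov D (a + δ) y) = ∑ y ∈ W, 2 := by
      rw [Finset.sum_add_distrib, hl2, hs, ht]
      omega
    have := (Finset.sum_eq_sum_iff_of_le
      (fun y hy => by have := hcov y hy; omega :
        ∀ y ∈ W, 2 ≤ cov D a y + cov D (a + δ) y)).1 hsum.symm
    intro y hy
    have h1 := this y hy
    have h2 := hcov y hy
    omega
  · have hsum : ∑ q ∈ D, (((if q.2 ∈ W then 1 else 0) + (if q.2 - q.1 + a ∈ W then 1 else 0) +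
      (if q.1 + q.2 - a ∈ W then 1 else 0)) + ((if q.2 ∈ W then 1 else 0) +
      (if q.2 - q.1 + (a + δ) ∈ W then 1 else 0) + (if q.1 + q.2 - (a + δ) ∈ W then 1 else 0)))
      = ∑ q ∈ D, ((if q.2 ∈ W then 2 else 0) + (2:ℕ)) := by
      rw [hcf, Finset.sum_add_distrib]
      omega
    have := (Finset.sum_eq_sum_iff_of_le hpt).1 hsum
    intro q hq
    have h1 := this q hq
    have h3 := ind_le (q.2 - q.1) a δ w
    have h2 := ind_le (q.1 + q.2) (- (a + δ)) δ w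
    rw [show q.1 + q.2 + (- (a + δ) + δ) = q.1 + q.2 - a by ring,
      show q.1 + q.2 + - (a + δ) = q.1 + q.2 - (a + δ) by ring] at h2
    rw [← hW] at h3 h2
    split_ifs at h1 h2 h3 ⊢ <;> omega


/-- Preliminary data: the box spanned by the extreme empty lines is `[0,δ₁] × [0,δ₂]`, the board
is `[-a,2g-a] × [-c,2g-c]`. -/
structure Pre (g : ℕ) (δ₁ δ₂ a c : ℤ) (D : Finset (ℤ × ℤ)) : Prop where
  gpos : 1 ≤ g
  card : D.card = g
  a0 : 0 ≤ a
  c0 : 0 ≤ c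
  δ₁lo : (g : ℤ) ≤ δ₁
  δ₂lo : (g : ℤ) ≤ δ₂
  aδ : a + δ₁ ≤ 2 * g
  cδ : c + δ₂ ≤ 2 * g
  bx : ∀ q ∈ D, -a ≤ q.1 ∧ q.1 ≤ 2 * g - a
  bY : ∀ q ∈ D, -c ≤ q.2 ∧ q.2 ≤ 2 * g - c
  outx : ∀ x, -a ≤ x → x ≤ 2 * g - a → (x < 0 ∨ δ₁ < x) → ∃ q ∈ D, q.1 = x
  outy : ∀ y, -c ≤ y → y ≤ 2 * g - c → (y < 0 ∨ δ₂ < y) → ∃ q ∈ D, q.2 = y
  ex0 : ∀ q ∈ D, q.1 ≠ 0
  exδ : ∀ q ∈ D, q.1 ≠ δ₁
  ey0 : ∀ q ∈ D, q.2 ≠ 0
  eyδ : ∀ q ∈ D, q.2 ≠ δ₂
  dom : ∀ x y, -a ≤ x → x ≤ 2 * g - a → -c ≤ y → y ≤ 2 * g - c →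
    (∃ q ∈ D, q.1 = x) ∨ (∃ q ∈ D, q.2 = y) ∨ (∃ q ∈ D, q.2 - q.1 = y - x) ∨
      (∃ q ∈ D, q.1 + q.2 = x + y)

/-- transposition -/
def sw (D : Finset (ℤ × ℤ)) : Finset (ℤ × ℤ) := D.image Prod.swap

lemma mem_sw {D : Finset (ℤ × ℤ)} {q : ℤ × ℤ} : q ∈ sw D ↔ (q.2, q.1) ∈ D := by
  unfold sw
  rw [Finset.mem_image]
  constructor
  · rintro ⟨p, hp, rfl⟩
    simpa using hp
  · intro h
    exact ⟨(q.2, q.1), h, rfl⟩

lemma card_sw (D : Finset (ℤ × ℤ)) : (sw D).card = D.card :=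
  Finset.card_image_of_injective _ Prod.swap_injective

lemma Pre.swap {g : ℕ} {δ₁ δ₂ a c : ℤ} {D : Finset (ℤ × ℤ)} (h : Pre g δ₁ δ₂ a c D) :
    Pre g δ₂ δ₁ c a (sw D) where
  gpos := h.gpos
  card := by rw [card_sw, h.card]
  a0 := h.c0
  c0 := h.a0
  δ₁lo := h.δ₂lo
  δ₂lo := h.δ₁lo
  aδ := h.cδ
  cδ := h.aδ
  bx := fun q hq => h.bY _ (mem_sw.1 hq)
  bY := fun q hq => h.bx _ (mem_sw.1 hq)
  outx := fun x h1 h2 h3 => by
    obtain ⟨q, hq, e⟩ := h.outy x h1 h2 h3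
    exact ⟨(q.2, q.1), mem_sw.2 hq, e⟩
  outy := fun x h1 h2 h3 => by
    obtain ⟨q, hq, e⟩ := h.outx x h1 h2 h3
    exact ⟨(q.2, q.1), mem_sw.2 hq, e⟩
  ex0 := fun q hq => h.ey0 _ (mem_sw.1 hq)
  exδ := fun q hq => h.eyδ _ (mem_sw.1 hq)
  ey0 := fun q hq => h.ex0 _ (mem_sw.1 hq)
  eyδ := fun q hq => h.exδ _ (mem_sw.1 hq)
  dom := fun x y h1 h2 h3 h4 => by
    rcases h.dom y x h3 h4 h1 h2 with ⟨q, hq, e⟩ | ⟨q, hq, e⟩ | ⟨q, hq, e⟩ | ⟨q, hq, e⟩
    · exact Or.inr (Or.inl ⟨(q.2, q.1), mem_sw.2 hq, e⟩)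
    · exact Or.inl ⟨(q.2, q.1), mem_sw.2 hq, e⟩
    · exact Or.inr (Or.inr (Or.inl ⟨(q.2, q.1), mem_sw.2 hq, by simp only; omega⟩))
    · exact Or.inr (Or.inr (Or.inr ⟨(q.2, q.1), mem_sw.2 hq, by simp only; omega⟩))

lemma cnt_pos {D : Finset (ℤ × ℤ)} {f : ℤ × ℤ → ℤ} {v : ℤ} (h : ∃ q ∈ D, f q = v) :
    1 ≤ cnt D f v := by
  obtain ⟨q, hq, e⟩ := h
  exact Finset.card_pos.2 ⟨q, Finset.mem_filter.2 ⟨hq, e⟩⟩

lemma Pre.cov_pos {g : ℕ} {δ₁ δ₂ a c : ℤ} {D : Finset (ℤ × ℤ)} (h : Pre g δ₁ δ₂ a c D)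
    (x y : ℤ) (hx : -a ≤ x) (hx' : x ≤ 2 * g - a) (hy : -c ≤ y) (hy' : y ≤ 2 * g - c)
    (hc : ∀ q ∈ D, q.1 ≠ x) : 1 ≤ cov D x y := by
  unfold cov
  rcases h.dom x y hx hx' hy hy' with ⟨q, hq, e⟩ | h1 | h1 | h1
  · exact absurd e (hc q hq)
  · have := cnt_pos (f := fun q => q.2) h1; omega
  · have := cnt_pos (f := fun q => q.2 - q.1) h1; omega
  · have := cnt_pos (f := fun q => q.1 + q.2) h1; omega

lemma rows_out (D : Finset (ℤ × ℤ)) (Y W : Finset ℤ)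
    (h : ∀ y ∈ Y, y ∉ W ∧ ∃ q ∈ D, q.2 = y) :
    Y.card ≤ (D.filter (fun q => ¬ q.2 ∈ W)).card := by
  have hsub : Y ⊆ (D.filter (fun q => ¬ q.2 ∈ W)).image (fun q => q.2) := by
    intro y hy
    obtain ⟨h1, q, hq, e⟩ := h y hy
    rw [Finset.mem_image]
    exact ⟨q, Finset.mem_filter.2 ⟨hq, by rw [e]; exact h1⟩, e⟩
  exact (Finset.card_le_card hsub).trans Finset.card_image_le

lemma Pre.not_lt {g : ℕ} {δ₁ δ₂ a c : ℤ} {D : Finset (ℤ × ℤ)} (h : Pre g δ₁ δ₂ a c D) :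
    ¬ δ₂ < δ₁ := by
  intro hlt
  have hg := h.gpos
  have h1 := h.δ₁lo
  have h2 := h.δ₂lo
  have h3 := h.aδ
  have h4 := h.cδ
  have h5 := h.a0
  have h6 := h.c0
  obtain ⟨w, hw1, hw2, hw3, hw4⟩ : ∃ w : ℤ, -c ≤ w ∧ w ≤ 0 ∧ δ₂ + 1 ≤ w + δ₁ ∧
      w + δ₁ ≤ 2 * g - c + 1 := by
    by_cases hc : δ₁ ≤ 2 * g - c + 1
    · exact ⟨0, by omega, by omega, by omega, by omega⟩
    · exact ⟨2 * g - c + 1 - δ₁, by omega, by omega, by omega, by omega⟩
  have hs := (spencer D 0 δ₁ w (by omega) (fun y hy => by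
    rw [Finset.mem_Ico] at hy
    refine ⟨h.cov_pos 0 y (by omega) (by omega) (by omega) (by omega) h.ex0, ?_⟩
    rw [zero_add]
    exact h.cov_pos δ₁ y (by omega) (by omega) (by omega) (by omega) h.exδ)).1
  have ho := rows_out D (Icc (-c) (2 * (g:ℤ) - c) \ Ico w (w + δ₁)) (Ico w (w + δ₁)) (by
    intro y hy
    rw [Finset.mem_sdiff, Finset.mem_Icc] at hy
    refine ⟨hy.2, h.outy y hy.1.1 hy.1.2 ?_⟩
    have := hy.2
    rw [Finset.mem_Ico] at this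
    omega)
  have hsub : Ico w (w + δ₁) ⊆ Icc (-c) (2 * (g:ℤ) - c) := by
    intro y hy
    rw [Finset.mem_Ico] at hy
    rw [Finset.mem_Icc]
    omega
  rw [Finset.card_sdiff_of_subset hsub, Int.card_Icc, Int.card_Ico] at ho
  have htot := Finset.card_filter_add_card_filter_not (s := D)
    (fun q : ℤ × ℤ => q.2 ∈ Ico w (w + δ₁))
  rw [h.card] at htot hs
  omega

/-- half of the exactness statements -/
structure Half (g : ℕ) (δ a c : ℤ) (D : Finset (ℤ × ℤ)) : Prop where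
  injy : ∀ p ∈ D, ∀ q ∈ D, p.2 = q.2 → p = q
  injd : ∀ p ∈ D, ∀ q ∈ D, p.2 - p.1 = q.2 - q.1 → p = q
  injs : ∀ p ∈ D, ∀ q ∈ D, p.1 + p.2 = q.1 + q.2 → p = q
  dr : ∀ q ∈ D, -δ < q.2 - q.1 ∧ q.2 - q.1 < δ
  sr : ∀ q ∈ D, -δ < q.1 + q.2 - δ ∧ q.1 + q.2 - δ < δ
  left : ∀ j, 0 ≤ j → j ≤ δ → cov D 0 j = 1
  right : ∀ j, 0 ≤ j → j ≤ δ → cov D δ j = 1

lemma eq_of_cnt_le_one {D : Finset (ℤ × ℤ)} {f : ℤ × ℤ → ℤ} {v : ℤ} (h : cnt D f v ≤ 1)
    {p q : ℤ × ℤ} (hp : p ∈ D) (hq : q ∈ D) (ep : f p = v) (eq : f q = v) : p = q := by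
  unfold cnt at h
  rw [Finset.card_le_one] at h
  exact h p (Finset.mem_filter.2 ⟨hp, ep⟩) q (Finset.mem_filter.2 ⟨hq, eq⟩)

lemma Pre.half {g : ℕ} {δ a c : ℤ} {D : Finset (ℤ × ℤ)} (h : Pre g δ δ a c D) :
    Half g δ a c D := by
  have hg := h.gpos
  have h1 := h.δ₁lo
  have h3 := h.aδ
  have h4 := h.cδ
  have h5 := h.a0
  have h6 := h.c0
  have hcovp : ∀ w : ℤ, 0 ≤ w → w + δ ≤ δ + 1 → ∀ y ∈ Ico w (w + δ),
      1 ≤ cov D 0 y ∧ 1 ≤ cov D (0 + δ) y := by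
    intro w hw1 hw2 y hy
    rw [Finset.mem_Ico] at hy
    refine ⟨h.cov_pos 0 y (by omega) (by omega) (by omega) (by omega) h.ex0, ?_⟩
    rw [zero_add]
    exact h.cov_pos δ y (by omega) (by omega) (by omega) (by omega) h.exδ
  obtain ⟨s1, t1⟩ := spencer D 0 δ 0 (by omega) (hcovp 0 le_rfl (by omega))
  obtain ⟨s2, t2⟩ := spencer D 0 δ 1 (by omega) (hcovp 1 (by omega) (by omega))
  have ho := rows_out D (Icc (-c) (2 * (g:ℤ) - c) \ Icc 0 δ) (Icc 0 δ) (by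
    intro y hy
    rw [Finset.mem_sdiff, Finset.mem_Icc] at hy
    refine ⟨hy.2, h.outy y hy.1.1 hy.1.2 ?_⟩
    have := hy.2
    rw [Finset.mem_Icc] at this
    omega)
  have hsub : Icc 0 δ ⊆ Icc (-c) (2 * (g:ℤ) - c) := by
    intro y hy
    rw [Finset.mem_Icc] at hy ⊢
    omega
  have hYc : ((Icc (-c) (2 * (g:ℤ) - c) \ Icc 0 δ).card : ℤ) = 2 * g - δ := by
    rw [Finset.card_sdiff_of_subset hsub, Int.card_Icc, Int.card_Icc]
    omega
  have htot := Finset.card_filter_add_card_filter_not (s := D)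
    (fun q : ℤ × ℤ => q.2 ∈ Icc 0 δ)
  have f1 : (D.filter (fun q => q.2 ∈ Ico (0:ℤ) (0 + δ))).card ≤
      (D.filter (fun q : ℤ × ℤ => q.2 ∈ Icc 0 δ)).card := by
    refine Finset.card_le_card (fun q hq => ?_)
    rw [Finset.mem_filter, Finset.mem_Ico] at hq
    rw [Finset.mem_filter, Finset.mem_Icc]
    exact ⟨hq.1, by omega, by omega⟩
  have f2 : (D.filter (fun q => q.2 ∈ Ico (1:ℤ) (1 + δ))).card ≤
      (D.filter (fun q : ℤ × ℤ => q.2 ∈ Icc 0 δ)).card := by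
    refine Finset.card_le_card (fun q hq => ?_)
    rw [Finset.mem_filter, Finset.mem_Ico] at hq
    rw [Finset.mem_filter, Finset.mem_Icc]
    exact ⟨hq.1, by omega, by omega⟩
  have hcard := h.card
  obtain ⟨c1, d1⟩ := t1 (by omega)
  obtain ⟨c2, d2⟩ := t2 (by omega)
  have left : ∀ j, 0 ≤ j → j ≤ δ → cov D 0 j = 1 := by
    intro j hj1 hj2
    by_cases hj : j < δ
    · exact (c1 j (by rw [Finset.mem_Ico]; omega)).1
    · exact (c2 j (by rw [Finset.mem_Ico]; omega)).1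
  have right : ∀ j, 0 ≤ j → j ≤ δ → cov D δ j = 1 := by
    intro j hj1 hj2
    by_cases hj : j < δ
    · have := (c1 j (by rw [Finset.mem_Ico]; omega)).2
      rwa [zero_add] at this
    · have := (c2 j (by rw [Finset.mem_Ico]; omega)).2
      rwa [zero_add] at this
  have dr : ∀ q ∈ D, -δ < q.2 - q.1 ∧ q.2 - q.1 < δ := by
    intro q hq
    have e1 := (d1 q hq).1
    have e2 := (d2 q hq).1
    simp only [Finset.mem_Ico] at e1 e2
    split_ifs at e1 e2 <;> omega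
  have sr : ∀ q ∈ D, -δ < q.1 + q.2 - δ ∧ q.1 + q.2 - δ < δ := by
    intro q hq
    have e1 := (d1 q hq).2
    have e2 := (d2 q hq).2
    simp only [Finset.mem_Ico] at e1 e2
    split_ifs at e1 e2 <;> omega
  refine ⟨?_, ?_, ?_, dr, sr, left, right⟩
  · -- rows
    intro p hp q hq e
    by_cases hy : 0 ≤ p.2 ∧ p.2 ≤ δ
    · have := left p.2 hy.1 hy.2
      unfold cov at this
      exact eq_of_cnt_le_one (f := fun q => q.2) (v := p.2) (by omega) hp hq rfl e.symm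
    · have hinj := Finset.injOn_of_surjOn_of_card_le
        (s := D.filter (fun q : ℤ × ℤ => ¬ q.2 ∈ Icc 0 δ))
        (t := Icc (-c) (2 * (g:ℤ) - c) \ Icc 0 δ) (fun q : ℤ × ℤ => q.2) (by
          intro r hr
          rw [Finset.mem_coe, Finset.mem_filter] at hr
          rw [Finset.mem_coe, Finset.mem_sdiff, Finset.mem_Icc]
          exact ⟨h.bY r hr.1, hr.2⟩) (by
          intro y hy
          rw [Finset.mem_coe, Finset.mem_sdiff, Finset.mem_Icc] at hy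
          have hy2 := hy.2
          rw [Finset.mem_Icc] at hy2
          obtain ⟨r, hr, er⟩ := h.outy y hy.1.1 hy.1.2 (by omega)
          exact ⟨r, by rw [Finset.mem_coe, Finset.mem_filter, er]; exact ⟨hr, hy.2⟩, er⟩)
        (by omega)
      refine hinj ?_ ?_ e
      · rw [Finset.mem_coe, Finset.mem_filter, Finset.mem_Icc]; exact ⟨hp, hy⟩
      · rw [Finset.mem_coe, Finset.mem_filter, Finset.mem_Icc, ← e]; exact ⟨hq, hy⟩
  · intro p hp q hq e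
    have hr := dr p hp
    by_cases hy : 0 ≤ p.2 - p.1
    · have := left (p.2 - p.1) hy (by omega)
      unfold cov at this
      rw [sub_zero] at this
      exact eq_of_cnt_le_one (f := fun q => q.2 - q.1) (v := p.2 - p.1) (by omega) hp hq rfl e.symm
    · have := right (p.2 - p.1 + δ) (by omega) (by omega)
      unfold cov at this
      rw [add_sub_cancel_right] at this
      exact eq_of_cnt_le_one (f := fun q => q.2 - q.1) (v := p.2 - p.1) (by omega) hp hq rfl e.symm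
  · intro p hp q hq e
    have hr := sr p hp
    by_cases hy : p.1 + p.2 ≤ δ
    · have := left (p.1 + p.2) (by omega) hy
      unfold cov at this
      rw [zero_add] at this
      exact eq_of_cnt_le_one (f := fun q => q.1 + q.2) (v := p.1 + p.2) (by omega) hp hq rfl e.symm
    · have := right (p.1 + p.2 - δ) (by omega) (by omega)
      unfold cov at this
      rw [show δ + (p.1 + p.2 - δ) = p.1 + p.2 by ring] at this
      exact eq_of_cnt_le_one (f := fun q => q.1 + q.2) (v := p.1 + p.2) (by omega) hp hq rfl e.symm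


/-- column coverage of the square `(x,y)`: column, difference and sum diagonal. -/
def covc (D : Finset (ℤ × ℤ)) (x y : ℤ) : ℕ :=
  cnt D (fun q => q.1) x + cnt D (fun q => q.2 - q.1) (y - x) + cnt D (fun q => q.1 + q.2) (x + y)

lemma cnt_sw (D : Finset (ℤ × ℤ)) (f : ℤ × ℤ → ℤ) (v : ℤ) :
    cnt (sw D) f v = cnt D (fun q => f (q.2, q.1)) v := by
  unfold cnt sw
  rw [Finset.filter_image, Finset.card_image_of_injective _ Prod.swap_injective]
  rfl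

lemma cov_sw (D : Finset (ℤ × ℤ)) (x y : ℤ) : cov (sw D) y x = covc D x y := by
  unfold cov covc
  rw [cnt_sw, cnt_sw, cnt_sw]
  have e1 : cnt D (fun q => q.1 - q.2) (x - y) = cnt D (fun q => q.2 - q.1) (y - x) := by
    unfold cnt
    congr 1
    refine Finset.filter_congr (fun q _ => ?_)
    constructor <;> intro h <;> simp only at h ⊢ <;> omega
  have e2 : cnt D (fun q => q.2 + q.1) (y + x) = cnt D (fun q => q.1 + q.2) (x + y) := by
    unfold cnt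
    congr 1
    refine Finset.filter_congr (fun q _ => ?_)
    constructor <;> intro h <;> simp only at h ⊢ <;> omega
  rw [e1, e2]

/-- The exact system of queens, in coordinates where the box spanned by the extreme empty lines
is `[0,δ]²` and the board is `[-a,2g-a] × [-c,2g-c]`. -/
structure Exact (g : ℕ) (δ a c : ℤ) (D : Finset (ℤ × ℤ)) : Prop where
  gpos : 1 ≤ g
  card : D.card = g
  a0 : 0 ≤ a
  c0 : 0 ≤ c
  δlo : (g : ℤ) ≤ δ
  aδ : a + δ ≤ 2 * g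
  cδ : c + δ ≤ 2 * g
  bx : ∀ q ∈ D, -a ≤ q.1 ∧ q.1 ≤ 2 * g - a
  bY : ∀ q ∈ D, -c ≤ q.2 ∧ q.2 ≤ 2 * g - c
  injx : ∀ p ∈ D, ∀ q ∈ D, p.1 = q.1 → p = q
  injy : ∀ p ∈ D, ∀ q ∈ D, p.2 = q.2 → p = q
  injd : ∀ p ∈ D, ∀ q ∈ D, p.2 - p.1 = q.2 - q.1 → p = q
  injs : ∀ p ∈ D, ∀ q ∈ D, p.1 + p.2 = q.1 + q.2 → p = q
  outx : ∀ x, -a ≤ x → x ≤ 2 * g - a → (x < 0 ∨ δ < x) → ∃ q ∈ D, q.1 = x
  outy : ∀ y, -c ≤ y → y ≤ 2 * g - c → (y < 0 ∨ δ < y) → ∃ q ∈ D, q.2 = y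
  ex0 : ∀ q ∈ D, q.1 ≠ 0
  exδ : ∀ q ∈ D, q.1 ≠ δ
  ey0 : ∀ q ∈ D, q.2 ≠ 0
  eyδ : ∀ q ∈ D, q.2 ≠ δ
  dr : ∀ q ∈ D, -δ < q.2 - q.1 ∧ q.2 - q.1 < δ
  sr : ∀ q ∈ D, -δ < q.1 + q.2 - δ ∧ q.1 + q.2 - δ < δ
  left : ∀ j, 0 ≤ j → j ≤ δ → cov D 0 j = 1
  right : ∀ j, 0 ≤ j → j ≤ δ → cov D δ j = 1
  bot : ∀ i, 0 ≤ i → i ≤ δ → covc D i 0 = 1
  top : ∀ i, 0 ≤ i → i ≤ δ → covc D i δ = 1
  dom : ∀ x y, -a ≤ x → x ≤ 2 * g - a → -c ≤ y → y ≤ 2 * g - c →
    (∃ q ∈ D, q.1 = x) ∨ (∃ q ∈ D, q.2 = y) ∨ (∃ q ∈ D, q.2 - q.1 = y - x) ∨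
      (∃ q ∈ D, q.1 + q.2 = x + y)

lemma Pre.exact {g : ℕ} {δ₁ δ₂ a c : ℤ} {D : Finset (ℤ × ℤ)} (h : Pre g δ₁ δ₂ a c D) :
    Exact g δ₁ a c D := by
  have e : δ₂ = δ₁ := le_antisymm (_root_.not_lt.1 h.swap.not_lt) (_root_.not_lt.1 h.not_lt)
  subst e
  have h1 := h.half
  have h2 := h.swap.half
  exact
  { gpos := h.gpos, card := h.card, a0 := h.a0, c0 := h.c0, δlo := h.δ₁lo, aδ := h.aδ,
    cδ := h.cδ, bx := h.bx, bY := h.bY,
    injx := fun p hp q hq e => by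
      have := h2.injy (p.2, p.1) (mem_sw.2 hp) (q.2, q.1) (mem_sw.2 hq) e
      rw [Prod.mk.injEq] at this
      exact Prod.ext this.2 this.1
    injy := h1.injy, injd := h1.injd, injs := h1.injs, outx := h.outx, outy := h.outy,
    ex0 := h.ex0, exδ := h.exδ, ey0 := h.ey0, eyδ := h.eyδ, dr := h1.dr, sr := h1.sr,
    left := h1.left, right := h1.right,
    bot := fun i h3 h4 => by rw [← cov_sw]; exact h2.left i h3 h4
    top := fun i h3 h4 => by rw [← cov_sw]; exact h2.right i h3 h4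
    dom := h.dom }

/-- extreme empty columns of a set of `g` queens on `[0,2g]²` -/
lemma extremes (g : ℕ) (D : Finset (ℤ × ℤ)) (hD : D.card = g) (f : ℤ × ℤ → ℤ) :
    ∃ A B : ℤ, 0 ≤ A ∧ B ≤ 2 * g ∧ A + g ≤ B ∧ (∀ q ∈ D, f q ≠ A) ∧ (∀ q ∈ D, f q ≠ B) ∧
      ∀ x : ℤ, 0 ≤ x → x ≤ 2 * g → (x < A ∨ B < x) → ∃ q ∈ D, f q = x := by
  classical
  set E := (Icc (0:ℤ) (2 * g)).filter (fun x => ∀ q ∈ D, f q ≠ x) with hE
  have hcard : g + 1 ≤ E.card := by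
    have h1 : (Icc (0:ℤ) (2 * g)) ⊆ E ∪ D.image f := by
      intro x hx
      rw [Finset.mem_union, hE, Finset.mem_filter, Finset.mem_image]
      by_cases h : ∀ q ∈ D, f q ≠ x
      · exact Or.inl ⟨hx, h⟩
      · push Not at h
        exact Or.inr h
    have h2 := (Finset.card_le_card h1).trans (Finset.card_union_le _ _)
    have h3 : (D.image f).card ≤ g := hD ▸ Finset.card_image_le
    rw [Int.card_Icc] at h2
    omega
  have hne : E.Nonempty := Finset.card_pos.1 (by omega)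
  have key : ∀ x, x ∈ E ↔ (0 ≤ x ∧ x ≤ 2 * (g:ℤ)) ∧ ∀ q ∈ D, f q ≠ x := by
    intro x
    rw [hE, Finset.mem_filter, Finset.mem_Icc]
  refine ⟨E.min' hne, E.max' hne, ?_, ?_, ?_, ?_, ?_, ?_⟩
  · exact ((key _).1 (Finset.min'_mem E hne)).1.1
  · exact ((key _).1 (Finset.max'_mem E hne)).1.2
  · have hsub : E ⊆ Icc (E.min' hne) (E.max' hne) := by
      intro x hx
      rw [Finset.mem_Icc]
      exact ⟨Finset.min'_le _ _ hx, Finset.le_max' _ _ hx⟩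
    have := Finset.card_le_card hsub
    rw [Int.card_Icc] at this
    omega
  · exact ((key _).1 (Finset.min'_mem E hne)).2
  · exact ((key _).1 (Finset.max'_mem E hne)).2
  · intro x hx0 hx1 hx
    by_contra hcon
    push Not at hcon
    have hxE : x ∈ E := (key x).2 ⟨⟨hx0, hx1⟩, hcon⟩
    have h1 := Finset.min'_le _ _ hxE
    have h2 := Finset.le_max' _ _ hxE
    omega

/-- Part A: a dominating set of `g` queens on the board `[0,2g]²` gives an exact system. -/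
theorem exact_of_dominating (g : ℕ) (D : Finset (ℤ × ℤ)) (hD : D.card = g)
    (hb : ∀ q ∈ D, 0 ≤ q.1 ∧ q.1 ≤ 2 * g ∧ 0 ≤ q.2 ∧ q.2 ≤ 2 * g)
    (hdom : ∀ x y : ℤ, 0 ≤ x → x ≤ 2 * g → 0 ≤ y → y ≤ 2 * g →
      ∃ q ∈ D, q.1 = x ∨ q.2 = y ∨ q.2 - q.1 = y - x ∨ q.1 + q.2 = x + y) :
    ∃ (δ a c : ℤ) (D' : Finset (ℤ × ℤ)), Exact g δ a c D' := by
  classical
  have hg : 1 ≤ g := by
    obtain ⟨q, hq, -⟩ := hdom 0 0 le_rfl (by positivity) le_rfl (by positivity)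
    rw [← hD]
    exact Finset.card_pos.2 ⟨q, hq⟩
  obtain ⟨A, B, A0, B2, AB, eA, eB, oAB⟩ := extremes g D hD (fun q => q.1)
  obtain ⟨C, E, C0, E2, CE, eC, eE, oCE⟩ := extremes g D hD (fun q => q.2)
  set D' := D.image (fun q => (q.1 - A, q.2 - C)) with hD'
  have hm : ∀ q, q ∈ D' ↔ (q.1 + A, q.2 + C) ∈ D := by
    intro q
    rw [hD', Finset.mem_image]
    constructor
    · rintro ⟨p, hp, rfl⟩
      simpa using hp
    · intro h
      exact ⟨_, h, by simp⟩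
  have hcard : D'.card = g := by
    rw [hD', Finset.card_image_of_injective, hD]
    intro p q h
    simp only [Prod.mk.injEq] at h
    exact Prod.ext (by omega) (by omega)
  have hpre : Pre g (B - A) (E - C) A C D' := by
    refine ⟨hg, hcard, A0, C0, by omega, by omega, by omega, by omega, ?_, ?_, ?_, ?_, ?_, ?_,
      ?_, ?_, ?_⟩
    · intro q hq
      have := hb _ ((hm q).1 hq)
      simp only at this
      omega
    · intro q hq
      have := hb _ ((hm q).1 hq)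
      simp only at this
      omega
    · intro x h1 h2 h3
      obtain ⟨q, hq, e⟩ := oAB (x + A) (by omega) (by omega) (by omega)
      exact ⟨(q.1 - A, q.2 - C), by rw [hm]; simpa using hq, by simp only; omega⟩
    · intro x h1 h2 h3
      obtain ⟨q, hq, e⟩ := oCE (x + C) (by omega) (by omega) (by omega)
      exact ⟨(q.1 - A, q.2 - C), by rw [hm]; simpa using hq, by simp only; omega⟩
    · intro q hq
      have := eA _ ((hm q).1 hq)
      simp only at this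
      omega
    · intro q hq
      have := eB _ ((hm q).1 hq)
      simp only at this
      omega
    · intro q hq
      have := eC _ ((hm q).1 hq)
      simp only at this
      omega
    · intro q hq
      have := eE _ ((hm q).1 hq)
      simp only at this
      omega
    · intro x y h1 h2 h3 h4
      obtain ⟨q, hq, e⟩ := hdom (x + A) (y + C) (by omega) (by omega) (by omega) (by omega)
      have hq' : (q.1 - A, q.2 - C) ∈ D' := by rw [hm]; simpa using hq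
      rcases e with e | e | e | e
      · exact Or.inl ⟨_, hq', by simp only; omega⟩
      · exact Or.inr (Or.inl ⟨_, hq', by simp only; omega⟩)
      · exact Or.inr (Or.inr (Or.inl ⟨_, hq', by simp only; omega⟩))
      · exact Or.inr (Or.inr (Or.inr ⟨_, hq', by simp only; omega⟩))
  exact ⟨B - A, A, C, D', hpre.exact⟩

/-- Version for the board `Fin n × Fin n`. -/
theorem exact_of_fin (n g : ℕ) (hn : 2 * g + 1 = n) (D : Finset (Fin n × Fin n))
    (hD : D.card = g)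
    (hdom : ∀ p : Fin n × Fin n, ∃ q ∈ D,
      p.1 = q.1 ∨ p.2 = q.2 ∨
      (p.1.val : ℤ) - (p.2.val : ℤ) = (q.1.val : ℤ) - (q.2.val : ℤ) ∨
      p.1.val + p.2.val = q.1.val + q.2.val) :
    ∃ (δ a c : ℤ) (D' : Finset (ℤ × ℤ)), Exact g δ a c D' := by
  classical
  set φ : Fin n × Fin n → ℤ × ℤ := fun q => ((q.1.val : ℤ), (q.2.val : ℤ)) with hφ
  have hφi : Function.Injective φ := by
    intro p q h
    simp only [hφ, Prod.mk.injEq] at h
    exact Prod.ext (Fin.ext (by omega)) (Fin.ext (by omega))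
  refine exact_of_dominating g (D.image φ) ?_ ?_ ?_
  · rw [Finset.card_image_of_injective _ hφi, hD]
  · intro q hq
    obtain ⟨p, _, rfl⟩ := Finset.mem_image.1 hq
    have h1 := p.1.isLt
    have h2 := p.2.isLt
    simp only [hφ]
    omega
  · intro x y hx0 hx1 hy0 hy1
    obtain ⟨q, hq, e⟩ := hdom (⟨x.toNat, by omega⟩, ⟨y.toNat, by omega⟩)
    refine ⟨φ q, Finset.mem_image_of_mem _ hq, ?_⟩
    simp only [hφ]
    simp only [Fin.ext_iff] at e
    omega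


/-- empty columns of the box -/
noncomputable def colsE (δ : ℤ) (D : Finset (ℤ × ℤ)) : Finset ℤ :=
  (Icc 0 δ).filter (fun x => ∀ q ∈ D, q.1 ≠ x)

/-- empty rows of the box -/
noncomputable def rowsE (δ : ℤ) (D : Finset (ℤ × ℤ)) : Finset ℤ :=
  (Icc 0 δ).filter (fun x => ∀ q ∈ D, q.2 ≠ x)

/-- occupied difference diagonals -/
def dif (D : Finset (ℤ × ℤ)) : Finset ℤ := D.image (fun q => q.2 - q.1)

/-- occupied sum diagonals -/
def sm (δ : ℤ) (D : Finset (ℤ × ℤ)) : Finset ℤ := D.image (fun q => q.1 + q.2 - δ)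

lemma mem_colsE {δ : ℤ} {D : Finset (ℤ × ℤ)} {x : ℤ} :
    x ∈ colsE δ D ↔ (0 ≤ x ∧ x ≤ δ) ∧ ∀ q ∈ D, q.1 ≠ x := by
  rw [colsE, Finset.mem_filter, Finset.mem_Icc]

lemma mem_rowsE {δ : ℤ} {D : Finset (ℤ × ℤ)} {x : ℤ} :
    x ∈ rowsE δ D ↔ (0 ≤ x ∧ x ≤ δ) ∧ ∀ q ∈ D, q.2 ≠ x := by
  rw [rowsE, Finset.mem_filter, Finset.mem_Icc]

lemma mem_dif {D : Finset (ℤ × ℤ)} {x : ℤ} : x ∈ dif D ↔ ∃ q ∈ D, q.2 - q.1 = x := by
  rw [dif, Finset.mem_image]

lemma mem_sm {δ : ℤ} {D : Finset (ℤ × ℤ)} {x : ℤ} :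
    x ∈ sm δ D ↔ ∃ q ∈ D, q.1 + q.2 - δ = x := by
  rw [sm, Finset.mem_image]

lemma cnt_eq_zero {D : Finset (ℤ × ℤ)} {f : ℤ × ℤ → ℤ} {v : ℤ} :
    cnt D f v = 0 ↔ ∀ q ∈ D, f q ≠ v := by
  unfold cnt
  rw [Finset.card_eq_zero, Finset.filter_eq_empty_iff]

lemma cnt_pos_iff {D : Finset (ℤ × ℤ)} {f : ℤ × ℤ → ℤ} {v : ℤ} :
    0 < cnt D f v ↔ ∃ q ∈ D, f q = v := by
  rw [Nat.pos_iff_ne_zero, Ne, cnt_eq_zero]
  push Not
  rfl

namespace Exact

variable {g : ℕ} {δ a c : ℤ} {D : Finset (ℤ × ℤ)}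

theorem image_fst (h : Exact g δ a c D) :
    D.image (fun q => q.1) = Icc (-a) (2 * (g:ℤ) - a) \ colsE δ D := by
  ext x
  rw [Finset.mem_image, Finset.mem_sdiff, Finset.mem_Icc, mem_colsE]
  constructor
  · rintro ⟨q, hq, rfl⟩
    exact ⟨h.bx q hq, fun h' => h'.2 q hq rfl⟩
  · rintro ⟨h1, h2⟩
    by_cases hx : 0 ≤ x ∧ x ≤ δ
    · by_contra hcon
      push Not at hcon
      exact h2 ⟨hx, hcon⟩
    · exact h.outx x h1.1 h1.2 (by omega)

theorem image_snd (h : Exact g δ a c D) :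
    D.image (fun q => q.2) = Icc (-c) (2 * (g:ℤ) - c) \ rowsE δ D := by
  ext x
  rw [Finset.mem_image, Finset.mem_sdiff, Finset.mem_Icc, mem_rowsE]
  constructor
  · rintro ⟨q, hq, rfl⟩
    exact ⟨h.bY q hq, fun h' => h'.2 q hq rfl⟩
  · rintro ⟨h1, h2⟩
    by_cases hx : 0 ≤ x ∧ x ≤ δ
    · by_contra hcon
      push Not at hcon
      exact h2 ⟨hx, hcon⟩
    · exact h.outy x h1.1 h1.2 (by omega)

theorem injOn_fst (h : Exact g δ a c D) : Set.InjOn (fun q : ℤ × ℤ => q.1) D :=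
  fun p hp q hq e => h.injx p hp q hq e

theorem injOn_snd (h : Exact g δ a c D) : Set.InjOn (fun q : ℤ × ℤ => q.2) D :=
  fun p hp q hq e => h.injy p hp q hq e

theorem injOn_dif (h : Exact g δ a c D) : Set.InjOn (fun q : ℤ × ℤ => q.2 - q.1) D :=
  fun p hp q hq e => h.injd p hp q hq e

theorem injOn_sm (h : Exact g δ a c D) : Set.InjOn (fun q : ℤ × ℤ => q.1 + q.2 - δ) D :=
  fun p hp q hq e => h.injs p hp q hq (by simp only at e; omega)

/-- transfer of a sum over the columns of the queens -/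
theorem sum_fst (h : Exact g δ a c D) {M : Type*} [AddCommMonoid M] (f : ℤ → M) :
    ∑ q ∈ D, f q.1 = ∑ x ∈ Icc (-a) (2 * (g:ℤ) - a) \ colsE δ D, f x := by
  rw [← h.image_fst, Finset.sum_image h.injOn_fst]

/-- transfer of a sum over the rows of the queens -/
theorem sum_snd (h : Exact g δ a c D) {M : Type*} [AddCommMonoid M] (f : ℤ → M) :
    ∑ q ∈ D, f q.2 = ∑ x ∈ Icc (-c) (2 * (g:ℤ) - c) \ rowsE δ D, f x := by
  rw [← h.image_snd, Finset.sum_image h.injOn_snd]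

/-- transfer of a sum over the differences of the queens -/
theorem sum_dif (h : Exact g δ a c D) {M : Type*} [AddCommMonoid M] (f : ℤ → M) :
    ∑ q ∈ D, f (q.2 - q.1) = ∑ s ∈ dif D, f s := by
  rw [dif, Finset.sum_image h.injOn_dif]

/-- transfer of a sum over the (shifted) sums of the queens -/
theorem sum_sm (h : Exact g δ a c D) {M : Type*} [AddCommMonoid M] (f : ℤ → M) :
    ∑ q ∈ D, f (q.1 + q.2 - δ) = ∑ s ∈ sm δ D, f s := by
  rw [sm, Finset.sum_image h.injOn_sm]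

theorem colsE_subset (h : Exact g δ a c D) : colsE δ D ⊆ Icc (-a) (2 * (g:ℤ) - a) := by
  intro x hx
  rw [mem_colsE] at hx
  have := h.a0
  have := h.aδ
  rw [Finset.mem_Icc]
  omega

theorem rowsE_subset (h : Exact g δ a c D) : rowsE δ D ⊆ Icc (-c) (2 * (g:ℤ) - c) := by
  intro x hx
  rw [mem_rowsE] at hx
  have := h.c0
  have := h.cδ
  rw [Finset.mem_Icc]
  omega

theorem card_colsE (h : Exact g δ a c D) : (colsE δ D).card = g + 1 := by
  have h1 := congrArg Finset.card h.image_fst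
  rw [Finset.card_image_of_injOn h.injOn_fst, h.card,
    Finset.card_sdiff_of_subset h.colsE_subset, Int.card_Icc] at h1
  have h2 := Finset.card_le_card h.colsE_subset
  rw [Int.card_Icc] at h2
  omega

theorem card_rowsE (h : Exact g δ a c D) : (rowsE δ D).card = g + 1 := by
  have h1 := congrArg Finset.card h.image_snd
  rw [Finset.card_image_of_injOn h.injOn_snd, h.card,
    Finset.card_sdiff_of_subset h.rowsE_subset, Int.card_Icc] at h1
  have h2 := Finset.card_le_card h.rowsE_subset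
  rw [Int.card_Icc] at h2
  omega

theorem card_dif (h : Exact g δ a c D) : (dif D).card = g := by
  rw [dif, Finset.card_image_of_injOn h.injOn_dif, h.card]

theorem card_sm (h : Exact g δ a c D) : (sm δ D).card = g := by
  rw [sm, Finset.card_image_of_injOn h.injOn_sm, h.card]

theorem edge (h : Exact g δ a c D) (j : ℤ) (h0 : 0 ≤ j) (h1 : j ≤ δ) :
    ((j ∈ rowsE δ D ↔ (j ∈ dif D ∨ j - δ ∈ sm δ D)) ∧ ¬ (j ∈ dif D ∧ j - δ ∈ sm δ D)) ∧
    ((j ∈ rowsE δ D ↔ (j - δ ∈ dif D ∨ j ∈ sm δ D)) ∧ ¬ (j - δ ∈ dif D ∧ j ∈ sm δ D)) ∧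
    ((j ∈ colsE δ D ↔ (-j ∈ dif D ∨ j - δ ∈ sm δ D)) ∧ ¬ (-j ∈ dif D ∧ j - δ ∈ sm δ D)) ∧
    ((j ∈ colsE δ D ↔ (δ - j ∈ dif D ∨ j ∈ sm δ D)) ∧ ¬ (δ - j ∈ dif D ∧ j ∈ sm δ D)) := by
  have eJ : j ∈ rowsE δ D ↔ cnt D (fun q => q.2) j = 0 := by
    rw [mem_rowsE, cnt_eq_zero]
    exact ⟨fun h' => h'.2, fun h' => ⟨⟨h0, h1⟩, h'⟩⟩
  have eI : j ∈ colsE δ D ↔ cnt D (fun q => q.1) j = 0 := by
    rw [mem_colsE, cnt_eq_zero]
    exact ⟨fun h' => h'.2, fun h' => ⟨⟨h0, h1⟩, h'⟩⟩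
  have ed : ∀ v, v ∈ dif D ↔ 0 < cnt D (fun q => q.2 - q.1) v := by
    intro v; rw [mem_dif, cnt_pos_iff]
  have es : ∀ v w, w = v + δ → (v ∈ sm δ D ↔ 0 < cnt D (fun q => q.1 + q.2) w) := by
    intro v w e
    rw [mem_sm, cnt_pos_iff]
    constructor
    · rintro ⟨q, hq, e'⟩; exact ⟨q, hq, by omega⟩
    · rintro ⟨q, hq, e'⟩; exact ⟨q, hq, by omega⟩
  have hl := h.left j h0 h1
  have hr := h.right j h0 h1
  have hb := h.bot j h0 h1
  have ht := h.top j h0 h1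
  unfold cov at hl hr
  unfold covc at hb ht
  rw [sub_zero, zero_add] at hl
  rw [add_zero, zero_sub] at hb
  rw [eJ, eI, ed, ed, ed, ed, es (j - δ) j (by ring), es j (δ + j) (by ring)]
  rw [show j + δ = δ + j by ring] at ht
  refine ⟨⟨?_, ?_⟩, ⟨?_, ?_⟩, ⟨?_, ?_⟩, ⟨?_, ?_⟩⟩ <;> omega

theorem dom_box (h : Exact g δ a c D) (i : ℤ) (hi : i ∈ colsE δ D) (j : ℤ)
    (hj : j ∈ rowsE δ D) : j - i ∈ dif D ∨ i + j - δ ∈ sm δ D := by
  rw [mem_colsE] at hi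
  rw [mem_rowsE] at hj
  have h1 := h.a0
  have h2 := h.aδ
  have h3 := h.c0
  have h4 := h.cδ
  rcases h.dom i j (by omega) (by omega) (by omega) (by omega) with
    ⟨q, hq, e⟩ | ⟨q, hq, e⟩ | ⟨q, hq, e⟩ | ⟨q, hq, e⟩
  · exact absurd e (hi.2 q hq)
  · exact absurd e (hj.2 q hq)
  · exact Or.inl (mem_dif.2 ⟨q, hq, e⟩)
  · exact Or.inr (mem_sm.2 ⟨q, hq, by omega⟩)

theorem colour (h : Exact g δ a c D) :
    ((dif D).filter (fun s => Even s)).card = ((sm δ D).filter (fun t => Even (t + δ))).card := by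
  rw [dif, sm, Finset.filter_image, Finset.filter_image,
    Finset.card_image_of_injOn (h.injOn_dif.mono (Finset.filter_subset _ _)),
    Finset.card_image_of_injOn (h.injOn_sm.mono (Finset.filter_subset _ _))]
  congr 1
  refine Finset.filter_congr (fun q _ => ?_)
  rw [Int.even_iff, Int.even_iff]
  omega

end Exact

end Pool.Agent.Helper69.Queens
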