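import Pool.Agent.Helper69.QueensA
import Pool.Agent.Helper95.QData

/-!
Queens domination, part A, in the format of `QData`.
-/

set_option autoImplicit false

namespace Pool.Agent.Helper69.Queens

open Finset Pool.Agent.Helper95.Queens

theorem Exact.toQSys {g : ℕ} {δ a c : ℤ} {D : Finset (ℤ × ℤ)} (h : Exact g δ a c D) :
    QSys g δ (colsE δ D) (rowsE δ D) (dif D) (sm δ D) := by
  have hg := h.gpos
  have h1 := h.δlo
  have h2 := h.aδ
  have h3 := h.a0
  exact
  { δpos := by omega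
    δle := by omega
    I0 := mem_colsE.2 ⟨by omega, h.ex0⟩
    J0 := mem_rowsE.2 ⟨by omega, h.ey0⟩
    Iδ := mem_colsE.2 ⟨by omega, h.exδ⟩
    Jδ := mem_rowsE.2 ⟨by omega, h.eyδ⟩
    Irange := fun i hi => (mem_colsE.1 hi).1
    Jrange := fun j hj => (mem_rowsE.1 hj).1
    Prange := fun s hs => by
      obtain ⟨q, hq, rfl⟩ := mem_dif.1 hs
      exact h.dr q hq
    Qrange := fun s hs => by
      obtain ⟨q, hq, rfl⟩ := mem_sm.1 hs
      exact h.sr q hq
    Icard := h.card_colsE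
    Jcard := h.card_rowsE
    Pcard := h.card_dif
    Qcard := h.card_sm
    left := fun j h0 h1 => (h.edge j h0 h1).1.1
    left' := fun j h0 h1 => (h.edge j h0 h1).1.2
    right := fun j h0 h1 => (h.edge j h0 h1).2.1.1
    right' := fun j h0 h1 => (h.edge j h0 h1).2.1.2
    bot := fun j h0 h1 => (h.edge j h0 h1).2.2.1.1
    bot' := fun j h0 h1 => (h.edge j h0 h1).2.2.1.2
    top := fun j h0 h1 => (h.edge j h0 h1).2.2.2.1
    top' := fun j h0 h1 => (h.edge j h0 h1).2.2.2.2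
    dom := fun i hi j hj => h.dom_box i hi j hj
    col := h.colour }

theorem Exact.toQData {g : ℕ} {δ a c : ℤ} {D : Finset (ℤ × ℤ)} (h : Exact g δ a c D) :
    QData g δ a c D (colsE δ D) (rowsE δ D) (dif D) (sm δ D) where
  sys := h.toQSys
  a0 := h.a0
  aδ := by have := h.aδ; omega
  c0 := h.c0
  cδ := by have := h.cδ; omega
  Dcard := h.card
  xinj := h.injx
  yinj := h.injy
  sinj := h.injd
  tinj := h.injs
  cols := fun x => by
    have := h.image_fst
    rw [show D.image Prod.fst = D.image (fun q => q.1) from rfl, this, Finset.mem_sdiff,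
      Finset.mem_Icc, and_assoc]
  rows := fun x => by
    have := h.image_snd
    rw [show D.image Prod.snd = D.image (fun q => q.2) from rfl, this, Finset.mem_sdiff,
      Finset.mem_Icc, and_assoc]
  Pdef := rfl
  Qdef := rfl

/-- Part A: a dominating set of `g` queens on the board of side `2g+1` gives an exact system. -/
theorem partA (g : ℕ) (D0 : Finset (Fin (2 * g + 1) × Fin (2 * g + 1))) (hcard : D0.card = g)
    (hdom : ∀ p : Fin (2 * g + 1) × Fin (2 * g + 1), ∃ q ∈ D0,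
      p.1 = q.1 ∨ p.2 = q.2 ∨
      (p.1.val : ℤ) - (p.2.val : ℤ) = (q.1.val : ℤ) - (q.2.val : ℤ) ∨
      p.1.val + p.2.val = q.1.val + q.2.val) :
    ∃ (δ a c : ℤ) (D : Finset (ℤ × ℤ)) (I J P Q : Finset ℤ), QData g δ a c D I J P Q := by
  obtain ⟨δ, a, c, D, h⟩ := exact_of_fin (2 * g + 1) g rfl D0 hcard hdom
  exact ⟨δ, a, c, D, _, _, _, _, h.toQData⟩

/-- The lower bound `(n-1)/2` is attained only through a dominating set of `g` queens. -/
theorem partA' (n : ℕ)
    (hn : 2 * sInf {k : ℕ | ∃ D : Finset (Fin n × Fin n), D.card = k ∧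
        ∀ p : Fin n × Fin n, ∃ q ∈ D,
          p.1 = q.1 ∨ p.2 = q.2 ∨
          (p.1.val : ℤ) - (p.2.val : ℤ) = (q.1.val : ℤ) - (q.2.val : ℤ) ∨
          p.1.val + p.2.val = q.1.val + q.2.val} + 1 = n) :
    ∃ (g : ℕ) (δ a c : ℤ) (D : Finset (ℤ × ℤ)) (I J P Q : Finset ℤ),
      2 * g + 1 = n ∧ QData g δ a c D I J P Q := by
  set S := {k : ℕ | ∃ D : Finset (Fin n × Fin n), D.card = k ∧
        ∀ p : Fin n × Fin n, ∃ q ∈ D,
          p.1 = q.1 ∨ p.2 = q.2 ∨
          (p.1.val : ℤ) - (p.2.val : ℤ) = (q.1.val : ℤ) - (q.2.val : ℤ) ∨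
          p.1.val + p.2.val = q.1.val + q.2.val} with hS
  have hne : S.Nonempty := ⟨_, Finset.univ, rfl, fun p => ⟨p, Finset.mem_univ _, Or.inl rfl⟩⟩
  obtain ⟨D0, hc, hd⟩ := Nat.sInf_mem hne
  obtain ⟨δ, a, c, D, h⟩ := exact_of_fin n (sInf S) hn D0 hc hd
  exact ⟨sInf S, δ, a, c, D, _, _, _, _, hn, h.toQData⟩

end Pool.Agent.Helper69.Queens
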