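import Pool.Agent.Helper95.QData

/-!
Queens domination, part D: the alternating case is possible only for `g = 1` and `g = 5`.
-/

set_option autoImplicit false

namespace Pool.Agent.Helper69.Queens

open Finset Pool.Agent.Helper95.Queens

/-- a bounded-above down-closed residue class -/
lemma down_closed (P : Finset ℤ) (r : ℤ)
    (hd : ∀ j : ℕ, 4 * ((j : ℤ) + 1) + r ∈ P → 4 * (j : ℤ) + r ∈ P)
    (hb : ∃ j : ℕ, 4 * (j : ℤ) + r ∉ P) :
    ∃ A : ℕ, ∀ j : ℕ, 4 * (j : ℤ) + r ∈ P ↔ j < A := by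
  classical
  refine ⟨Nat.find hb, fun j => ⟨fun hj => ?_, fun hj => ?_⟩⟩
  · by_contra hcon
    rw [not_lt] at hcon
    obtain ⟨n, rfl⟩ := Nat.exists_eq_add_of_le hcon
    have key : ∀ n : ℕ, 4 * ((Nat.find hb + n : ℕ) : ℤ) + r ∈ P →
        4 * ((Nat.find hb : ℕ) : ℤ) + r ∈ P := by
      intro n
      induction n with
      | zero => intro h; simpa using h
      | succ n ih =>
        intro h
        refine ih (hd _ ?_)
        have e : ((Nat.find hb + (n + 1) : ℕ) : ℤ) = ((Nat.find hb + n : ℕ) : ℤ) + 1 := by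
          push_cast; ring
        rw [e] at h
        exact h
    exact Nat.find_spec hb (key n hj)
  · have := Nat.find_min hb hj
    push Not at this
    exact this

/-- the sum of an even function over a symmetric set of the alternating type -/
lemma sum_alt (P : Finset ℤ) (A B : ℕ) (hPe : ∀ s ∈ P, Even s) (hsym : ∀ s ∈ P, -s ∈ P)
    (hA : ∀ j : ℕ, 4 * (j : ℤ) ∈ P ↔ j < A) (hB : ∀ j : ℕ, 4 * (j : ℤ) + 2 ∈ P ↔ j < B)
    (h0 : (0 : ℤ) ∈ P)
    (f : ℤ → ℤ) (hf : ∀ x, f (-x) = f x) :
    ∑ s ∈ P, f s = 2 * (∑ j ∈ range A, f (4 * (j : ℤ)) + ∑ j ∈ range B, f (4 * (j : ℤ) + 2))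
      - f 0 := by
  classical
  have hR : P.filter (fun s => 0 ≤ s) =
      (range A).image (fun j : ℕ => 4 * (j : ℤ)) ∪ (range B).image (fun j : ℕ => 4 * (j : ℤ) + 2)
      := by
    ext s
    rw [mem_filter, mem_union, mem_image, mem_image]
    constructor
    · rintro ⟨hs, hs0⟩
      obtain ⟨k, hk⟩ := hPe s hs
      rcases Int.even_or_odd' k with ⟨l, hl | hl⟩
      · left
        refine ⟨l.toNat, ?_, by omega⟩
        rw [mem_range, ← hA]
        have e : 4 * ((l.toNat : ℕ) : ℤ) = s := by omega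
        rw [e]; exact hs
      · right
        refine ⟨l.toNat, ?_, by omega⟩
        rw [mem_range, ← hB]
        have e : 4 * ((l.toNat : ℕ) : ℤ) + 2 = s := by omega
        rw [e]; exact hs
    · rintro (⟨j, hj, rfl⟩ | ⟨j, hj, rfl⟩)
      · exact ⟨(hA j).2 (mem_range.1 hj), by omega⟩
      · exact ⟨(hB j).2 (mem_range.1 hj), by omega⟩
  have h1 : ∑ s ∈ P.filter (fun s => 0 ≤ s), f s =
      ∑ j ∈ range A, f (4 * (j : ℤ)) + ∑ j ∈ range B, f (4 * (j : ℤ) + 2) := by
    rw [hR, sum_union, sum_image, sum_image]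
    · intro x _ y _ h; simp only at h; omega
    · intro x _ y _ h; simp only at h; omega
    · rw [disjoint_left]
      intro s hs hs'
      obtain ⟨i, _, rfl⟩ := mem_image.1 hs
      obtain ⟨j, _, h⟩ := mem_image.1 hs'
      omega
  have h2 : ∑ s ∈ P.filter (fun s => ¬ 0 ≤ s), f s = ∑ s ∈ (P.filter (fun s => 0 ≤ s)).erase 0, f s
      := by
    refine sum_bij' (fun s _ => -s) (fun s _ => -s) ?_ ?_ ?_ ?_ ?_
    · intro s hs
      rw [mem_filter] at hs
      rw [mem_erase, mem_filter]
      exact ⟨by omega, hsym s hs.1, by omega⟩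
    · intro s hs
      rw [mem_erase, mem_filter] at hs
      rw [mem_filter]
      exact ⟨hsym s hs.2.1, by omega⟩
    · intro s _; ring
    · intro s _; ring
    · intro s _; rw [hf]
  have h3 := Finset.sum_erase_eq_sub (s := P.filter (fun s => 0 ≤ s)) (f := f)
    (a := 0) (by rw [mem_filter]; exact ⟨h0, le_rfl⟩)
  have h4 := Finset.sum_filter_add_sum_filter_not P (fun s => 0 ≤ s) f
  rw [← h4, h2, h3, h1]
  ring

lemma sum_sq_range (g : ℕ) : 3 * ∑ i ∈ range g, ((2 : ℤ) * i + 1 - g) ^ 2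
    = (g : ℤ) * ((g : ℤ) ^ 2 - 1) := by
  have h : ∀ (g : ℕ) (t : ℤ), 3 * ∑ i ∈ range g, ((2 : ℤ) * i + 1 - t) ^ 2
      = g * (4 * g ^ 2 - 1) - 6 * t * g ^ 2 + 3 * t ^ 2 * g := by
    intro g t
    induction g with
    | zero => simp
    | succ n ih =>
      rw [sum_range_succ, mul_add, ih]
      push_cast
      ring
  rw [h]
  ring

lemma sum_abs_range (k : ℕ) :
    ∑ i ∈ range (2 * k + 1), |(2 : ℤ) * i + 1 - ((2 * k + 1 : ℕ) : ℤ)| = 2 * k * (k + 1) := by
  have h1 : ∀ n : ℕ, n ≤ k → ∑ i ∈ range n, |(2 : ℤ) * i + 1 - ((2 * k + 1 : ℕ) : ℤ)|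
      = n * (2 * k + 1 - n) := by
    intro n hn
    induction n with
    | zero => simp
    | succ n ih =>
      rw [sum_range_succ, ih (by omega)]
      rw [abs_of_nonpos (by push_cast; omega)]
      push_cast
      ring
  have h2 : ∀ n : ℕ, ∑ i ∈ range (k + n), |(2 : ℤ) * i + 1 - ((2 * k + 1 : ℕ) : ℤ)|
      = k * (k + 1) + n * (n - 1) := by
    intro n
    induction n with
    | zero => rw [add_zero, h1 k le_rfl]; push_cast; ring
    | succ n ih =>
      rw [← add_assoc, sum_range_succ, ih]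
      rw [abs_of_nonneg (by push_cast; omega)]
      push_cast
      ring
  have := h2 (k + 1)
  rw [show k + (k + 1) = 2 * k + 1 by ring] at this
  rw [this]
  push_cast
  ring


lemma sum_sq4 (n : ℕ) : 3 * ∑ j ∈ range n, (4 * (j : ℤ)) ^ 2 = 8 * ((n : ℤ) - 1) * n * (2 * n - 1) := by
  induction n with
  | zero => simp
  | succ n ih =>
    rw [sum_range_succ, mul_add, ih]
    push_cast
    ring

lemma sum_sq42 (n : ℕ) : 3 * ∑ j ∈ range n, (4 * (j : ℤ) + 2) ^ 2 = 4 * (n : ℤ) * (4 * n ^ 2 - 1) := by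
  induction n with
  | zero => simp
  | succ n ih =>
    rw [sum_range_succ, mul_add, ih]
    push_cast
    ring

/-- sum of positive parts, even class -/
lemma sum_posE (h m : ℕ) : ∑ j ∈ range (h + m), max (4 * (j : ℤ) - 4 * h) 0 = 2 * (m : ℤ) * (m - 1)
    := by
  induction m with
  | zero =>
    rw [add_zero]
    have : ∀ j ∈ range h, max (4 * (j : ℤ) - 4 * h) 0 = 0 := by
      intro j hj
      rw [mem_range] at hj
      exact max_eq_right (by omega)
    rw [sum_congr rfl this]
    simp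
  | succ m ih =>
    rw [← add_assoc, sum_range_succ, ih, max_eq_left (by push_cast; omega)]
    push_cast
    ring

/-- sum of positive parts, odd class -/
lemma sum_posO (b m : ℕ) : ∑ j ∈ range (b + m), max (4 * (j : ℤ) + 2 - 4 * b) 0 = 2 * (m : ℤ) ^ 2
    := by
  induction m with
  | zero =>
    rw [add_zero]
    have : ∀ j ∈ range b, max (4 * (j : ℤ) + 2 - 4 * b) 0 = 0 := by
      intro j hj
      rw [mem_range] at hj
      exact max_eq_right (by omega)
    rw [sum_congr rfl this]
    simp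
  | succ m ih =>
    rw [← add_assoc, sum_range_succ, ih, max_eq_left (by push_cast; omega)]
    push_cast
    ring

theorem alt {g : ℕ} {δ a c : ℤ} {D : Finset (ℤ × ℤ)} {I J P Q : Finset ℤ}
    (h : QData g δ a c D I J P Q) (hδ : δ = 2 * (g : ℤ))
    (hJ : ∀ w, w ∈ J ↔ 0 ≤ w ∧ w ≤ δ ∧ Even w) (hI : ∀ w, w ∈ I ↔ 0 ≤ w ∧ w ≤ δ ∧ Even w)
    (hP : ∀ s ∈ P, -s ∈ P) (hQ : ∀ s ∈ Q, -s ∈ Q) : g = 1 ∨ g = 5 := by
  classical
  have S := h.sys
  have ha : a = 0 := by have := h.a0; have := h.aδ; omega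
  have hc : c = 0 := by have := h.c0; have := h.cδ; omega
  have hg1 : 1 ≤ g := by have := S.δpos; omega
  -- parity of the diagonals
  have hPe : ∀ s ∈ P, Even s := by
    intro s hs
    have hr := S.Prange s hs
    rcases le_total 0 s with h0 | h0
    · exact ((hJ s).1 ((S.left s h0 (by omega)).2 (Or.inl hs))).2.2
    · have := ((hJ (-s)).1 ((S.left (-s) (by omega) (by omega)).2 (Or.inl (hP s hs)))).2.2
      rwa [even_neg] at this
  have hQe : ∀ s ∈ Q, Even s := by
    intro s hs
    have hr := S.Qrange s hs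
    rcases le_total 0 s with h0 | h0
    · exact ((hJ s).1 ((S.right s h0 (by omega)).2 (Or.inr hs))).2.2
    · have := ((hJ (-s)).1 ((S.right (-s) (by omega) (by omega)).2 (Or.inr (hQ s hs)))).2.2
      rwa [even_neg] at this
  have hdown : ∀ s ∈ P, 4 ≤ s → s - 4 ∈ P := by
    intro s hs h4
    have hr := S.Prange s hs
    have hse := hPe s hs
    have h2 : (2 : ℤ) ∈ I := (hI 2).2 ⟨by omega, by omega, by decide⟩
    have hs2 : s - 2 ∈ J := (hJ (s - 2)).2 ⟨by omega, by omega, by
      rw [Int.even_iff] at hse ⊢; omega⟩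
    rcases S.dom 2 h2 (s - 2) hs2 with h' | h'
    · rwa [show s - 2 - 2 = s - 4 by ring] at h'
    · exfalso
      rw [show 2 + (s - 2) - δ = s - δ by ring] at h'
      exact S.left' s (by omega) (by omega) ⟨hs, h'⟩
  obtain ⟨A, hA'⟩ := down_closed P 0 (by
    intro j hj
    have := hdown _ hj (by omega)
    rwa [show 4 * ((j : ℤ) + 1) + 0 - 4 = 4 * (j : ℤ) + 0 by ring] at this) ⟨g, fun hj => by
      have := (S.Prange _ hj).2
      omega⟩
  have hA : ∀ j : ℕ, 4 * (j : ℤ) ∈ P ↔ j < A := by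
    intro j
    have := hA' j
    rwa [add_zero] at this
  obtain ⟨B, hB⟩ := down_closed P 2 (by
    intro j hj
    have := hdown _ hj (by omega)
    rwa [show 4 * ((j : ℤ) + 1) + 2 - 4 = 4 * (j : ℤ) + 2 by ring] at this) ⟨g, fun hj => by
      have := (S.Prange _ hj).2
      omega⟩
  have hP0 := S.P0
  have hA1 : 1 ≤ A := by
    have := (hA 0).1 (by simpa using hP0)
    omega
  have hsum := fun (f : ℤ → ℤ) (hf : ∀ x, f (-x) = f x) => sum_alt P A B hPe hP hA hB hP0 f hf
  -- the cardinality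
  have hgAB : (g : ℤ) = 2 * (A + B) - 1 := by
    have := hsum (fun _ => 1) (fun _ => rfl)
    simp only [sum_const, card_range, mul_one, nsmul_eq_mul] at this
    rw [S.Pcard] at this
    omega
  -- P = Q
  have hQP : Q = P := by
    have key : ∀ t : ℤ, 0 ≤ t → t < δ → (t ∈ Q ↔ t ∈ P) := by
      intro t ht0 htδ
      by_cases hte : Even t
      · have hr := S.right t ht0 htδ.le
        have hr' := S.right' t ht0 htδ.le
        have hJt := (hJ t).2 ⟨ht0, htδ.le, hte⟩
        have h1 : t ∈ Q ↔ δ - t ∉ P := by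
          constructor
          · intro hq hp
            have := hP _ hp
            rw [show -(δ - t) = t - δ by ring] at this
            exact hr' ⟨this, hq⟩
          · intro hp
            rcases hr.1 hJt with h' | h'
            · exfalso
              have := hP _ h'
              rw [show -(t - δ) = δ - t by ring] at this
              exact hp this
            · exact h'
        rw [h1]
        obtain ⟨k, hk⟩ := hte
        rcases Int.even_or_odd' k with ⟨l, hl | hl⟩
        · have e1 : t = 4 * ((l.toNat : ℕ) : ℤ) := by omega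
          by_cases hlA : l.toNat < A
          · have hin : t ∈ P := by rw [e1, hA]; exact hlA
            have e2 : δ - t = 4 * (((A + B - 1 - l.toNat : ℕ)) : ℤ) + 2 := by omega
            have hout : δ - t ∉ P := by rw [e2, hB]; omega
            exact ⟨fun _ => hin, fun _ => hout⟩
          · have hin : t ∉ P := by rw [e1, hA]; exact hlA
            have e2 : δ - t = 4 * (((A + B - 1 - l.toNat : ℕ)) : ℤ) + 2 := by omega
            have hout : δ - t ∈ P := by rw [e2, hB]; omega
            exact ⟨fun h' => absurd hout h', fun h' => absurd h' hin⟩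
        · have e1 : t = 4 * ((l.toNat : ℕ) : ℤ) + 2 := by omega
          by_cases hlA : l.toNat < B
          · have hin : t ∈ P := by rw [e1, hB]; exact hlA
            have e2 : δ - t = 4 * (((A + B - 1 - l.toNat : ℕ)) : ℤ) := by omega
            have hout : δ - t ∉ P := by rw [e2, hA]; omega
            exact ⟨fun _ => hin, fun _ => hout⟩
          · have hin : t ∉ P := by rw [e1, hB]; exact hlA
            have e2 : δ - t = 4 * (((A + B - 1 - l.toNat : ℕ)) : ℤ) := by omega
            have hout : δ - t ∈ P := by rw [e2, hA]; omega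
            exact ⟨fun h' => absurd hout h', fun h' => absurd h' hin⟩
      · exact ⟨fun h' => absurd (hQe t h') hte, fun h' => absurd (hPe t h') hte⟩
    ext t
    rcases le_total 0 t with ht | ht
    · by_cases h2 : t < δ
      · exact key t ht h2
      · constructor
        · intro h'; have := (S.Qrange t h').2; omega
        · intro h'; have := (S.Prange t h').2; omega
    · by_cases h2 : -t < δ
      · have := key (-t) (by omega) h2
        constructor
        · intro h'
          have := hP _ (this.1 (hQ t h'))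
          rwa [neg_neg] at this
        · intro h'
          have := hQ _ (this.2 (hP t h'))
          rwa [neg_neg] at this
      · constructor
        · intro h'; have := (S.Qrange t h').1; omega
        · intro h'; have := (S.Prange t h').1; omega
  -- sums over queens
  have injs : Set.InjOn (fun p : ℤ × ℤ => p.2 - p.1) D := fun p hp q hq e => h.sinj p hp q hq e
  have injt : Set.InjOn (fun p : ℤ × ℤ => p.1 + p.2 - δ) D := fun p hp q hq e =>
    h.tinj p hp q hq (by simp only at e; omega)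
  have injx : Set.InjOn (Prod.fst : ℤ × ℤ → ℤ) D := fun p hp q hq e => h.xinj p hp q hq e
  have injy : Set.InjOn (Prod.snd : ℤ × ℤ → ℤ) D := fun p hp q hq e => h.yinj p hp q hq e
  have sumS : ∀ f : ℤ → ℤ, ∑ q ∈ D, f (q.2 - q.1) = ∑ s ∈ P, f s := by
    intro f; rw [h.Pdef, sum_image injs]
  have sumT : ∀ f : ℤ → ℤ, ∑ q ∈ D, f (q.1 + q.2 - δ) = ∑ s ∈ P, f s := by
    intro f; rw [← hQP, h.Qdef, sum_image injt]
  have himx : D.image Prod.fst = (range g).image (fun i : ℕ => 2 * (i : ℤ) + 1) := by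
    ext x
    rw [h.cols, hI, ha, mem_image]
    constructor
    · rintro ⟨h1, h2, h3⟩
      have : Odd x := by
        rw [← Int.not_even_iff_odd]
        intro h'
        exact h3 ⟨by omega, by omega, h'⟩
      obtain ⟨k, hk⟩ := this
      exact ⟨k.toNat, by rw [mem_range]; omega, by omega⟩
    · rintro ⟨i, hi, rfl⟩
      rw [mem_range] at hi
      refine ⟨by omega, by omega, ?_⟩
      rintro ⟨_, _, h'⟩
      rw [Int.even_iff] at h'
      omega
  have himy : D.image Prod.snd = (range g).image (fun i : ℕ => 2 * (i : ℤ) + 1) := by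
    ext x
    rw [h.rows, hJ, hc, mem_image]
    constructor
    · rintro ⟨h1, h2, h3⟩
      have : Odd x := by
        rw [← Int.not_even_iff_odd]
        intro h'
        exact h3 ⟨by omega, by omega, h'⟩
      obtain ⟨k, hk⟩ := this
      exact ⟨k.toNat, by rw [mem_range]; omega, by omega⟩
    · rintro ⟨i, hi, rfl⟩
      rw [mem_range] at hi
      refine ⟨by omega, by omega, ?_⟩
      rintro ⟨_, _, h'⟩
      rw [Int.even_iff] at h'
      omega
  have sumX : ∀ f : ℤ → ℤ, ∑ q ∈ D, f q.1 = ∑ i ∈ range g, f (2 * (i : ℤ) + 1) := by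
    intro f
    rw [← sum_image (f := f) (g := (Prod.fst : ℤ × ℤ → ℤ)) injx, himx, sum_image]
    intro x _ y _ h'; simp only at h'; omega
  have sumY : ∀ f : ℤ → ℤ, ∑ q ∈ D, f q.2 = ∑ i ∈ range g, f (2 * (i : ℤ) + 1) := by
    intro f
    rw [← sum_image (f := f) (g := (Prod.snd : ℤ × ℤ → ℤ)) injy, himy, sum_image]
    intro x _ y _ h'; simp only at h'; omega
  -- the sum of squares identity: Pell
  have hpell : (A : ℤ) * (A - 1) - 4 * A * B + 2 * B + (B : ℤ) ^ 2 = 0 := by
    have h1 : ∑ q ∈ D, ((q.2 - q.1) ^ 2 + (q.1 + q.2 - δ) ^ 2) =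
        ∑ q ∈ D, (2 * (q.1 - g) ^ 2 + 2 * (q.2 - g) ^ 2) := by
      refine sum_congr rfl (fun q _ => ?_)
      rw [hδ]; ring
    rw [sum_add_distrib, sum_add_distrib, sumS (fun s => s ^ 2), sumT (fun s => s ^ 2),
      sumX (fun x => 2 * (x - g) ^ 2), sumY (fun x => 2 * (x - g) ^ 2),
      hsum (fun s => s ^ 2) (fun x => by ring), ← mul_sum] at h1
    have h2 := sum_sq_range g
    have h3 := sum_sq4 A
    have h4 := sum_sq42 B
    have h5 : (4 : ℤ) * (8 * ((A : ℤ) - 1) * A * (2 * A - 1) + 4 * (B : ℤ) * (4 * B ^ 2 - 1))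
        = 4 * ((g : ℤ) * ((g : ℤ) ^ 2 - 1)) := by
      rw [← h2, ← h3, ← h4]
      linarith
    have h6 : ((g : ℤ)) * (4 * ((A : ℤ) * (A - 1) - 4 * A * B + 2 * B + (B : ℤ) ^ 2)) = 0 := by
      rw [hgAB] at h5 ⊢
      linarith
    rcases mul_eq_zero.1 h6 with h7 | h7
    · omega
    · linarith
  have hBe : Even B := by
    have h1 : Even ((A : ℤ) * (A - 1)) := by
      have := Int.even_mul_succ_self ((A : ℤ) - 1)
      rwa [sub_add_cancel, mul_comm] at this
    have h2 : Even ((B : ℤ) ^ 2) := by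
      obtain ⟨w, hw⟩ := h1
      exact ⟨-w + 2 * A * B - B, by linarith⟩
    rw [Int.even_pow] at h2
    exact_mod_cast h2.1
  obtain ⟨b, hb⟩ := hBe
  obtain ⟨k, m, hm, hkm⟩ : ∃ k m : ℕ, A = k + m ∧ (m = k ∨ m = k + 1) := by
    rcases Nat.even_or_odd' A with ⟨k, hk | hk⟩
    · exact ⟨k, k, by omega, Or.inl rfl⟩
    · exact ⟨k, k + 1, by omega, Or.inr rfl⟩
  -- the weights
  obtain ⟨w, hw⟩ : ∃ w : ℤ → ℤ, ∀ x, w x = if (4 : ℤ) ∣ x then 2 * (k : ℤ) + max (|x| - 4 * k) 0
      else 2 * (b : ℤ) + max (|x| - 4 * b) 0 := ⟨_, fun _ => rfl⟩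
  have hweven : ∀ x, w (-x) = w x := by
    intro x
    rw [hw, hw, abs_neg]
    simp only [dvd_neg]
  have hle : ∀ q ∈ D, |q.1 - g| + |q.2 - g| ≤ w (q.2 - q.1) + w (q.1 + q.2 - δ) := by
    intro q hq
    have hx : q.1 ∈ D.image Prod.fst := mem_image_of_mem _ hq
    rw [himx, mem_image] at hx
    obtain ⟨i, _, hi⟩ := hx
    rw [hw, hw]
    have hdvd : (4 : ℤ) ∣ (q.2 - q.1) ↔ (4 : ℤ) ∣ (q.1 + q.2 - δ) := by omega
    by_cases h4 : (4 : ℤ) ∣ (q.2 - q.1)
    · rw [if_pos h4, if_pos (hdvd.1 h4)]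
      simp only [max_def, abs_eq_max_neg]
      split_ifs <;> omega
    · rw [if_neg h4, if_neg (fun h' => h4 (hdvd.2 h'))]
      simp only [max_def, abs_eq_max_neg]
      split_ifs <;> omega
  have htot : ∑ q ∈ D, (|q.1 - g| + |q.2 - g|) =
      ∑ q ∈ D, (w (q.2 - q.1) + w (q.1 + q.2 - δ)) := by
    rw [sum_add_distrib, sum_add_distrib, sumS w, sumT w, sumX (fun x => |x - g|),
      sumY (fun x => |x - g|), hsum w hweven]
    have e1 : ∑ j ∈ range A, w (4 * (j : ℤ)) = 2 * k * A + 2 * m * (m - 1) := by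
      have : ∀ j ∈ range A, w (4 * (j : ℤ)) = 2 * (k : ℤ) + max (4 * (j : ℤ) - 4 * k) 0 := by
        intro j _
        rw [hw, if_pos (Dvd.intro _ rfl), abs_of_nonneg (by positivity)]
      rw [sum_congr rfl this, sum_add_distrib, hm, sum_posE]
      simp only [sum_const, card_range, nsmul_eq_mul]
      push_cast
      ring
    have e2 : ∑ j ∈ range B, w (4 * (j : ℤ) + 2) = 6 * (b : ℤ) ^ 2 := by
      have : ∀ j ∈ range B, w (4 * (j : ℤ) + 2) = 2 * (b : ℤ) + max (4 * (j : ℤ) + 2 - 4 * b) 0 := by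
        intro j _
        rw [hw, if_neg (by omega), abs_of_nonneg (by positivity)]
      rw [sum_congr rfl this, sum_add_distrib, hb, sum_posO]
      simp only [sum_const, card_range, nsmul_eq_mul]
      push_cast
      ring
    have e3 : w 0 = 2 * k := by
      rw [hw, if_pos (dvd_zero _), abs_zero, max_eq_right (by omega), add_zero]
    have e4 : ∑ i ∈ range g, |2 * (i : ℤ) + 1 - g| = 2 * ((A : ℤ) + B - 1) * (A + B) := by
      have hg' : g = 2 * (A + B - 1) + 1 := by omega
      have := sum_abs_range (A + B - 1)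
      rw [← hg'] at this
      rw [this]
      have : ((A + B - 1 : ℕ) : ℤ) = (A : ℤ) + B - 1 := by omega
      rw [this]
      ring
    rw [e1, e2, e3, e4]
    have hbz : (B : ℤ) = 2 * b := by omega
    have hmz : (A : ℤ) = k + m := by omega
    rw [hbz, hmz] at hpell ⊢
    rcases hkm with e | e
    · have : (m : ℤ) = k := by omega
      rw [this] at hpell ⊢
      linarith
    · have : (m : ℤ) = k + 1 := by omega
      rw [this] at hpell ⊢
      linarith
  have heq := (sum_eq_sum_iff_of_le hle).1 htot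
  -- the two central queens
  have hκ : (g : ℤ) = 2 * ((A + B - 1 : ℕ) : ℤ) + 1 := by omega
  have hgx : (g : ℤ) ∈ D.image Prod.fst := by
    rw [himx, mem_image]
    exact ⟨A + B - 1, by rw [mem_range]; omega, hκ.symm⟩
  have hgy : (g : ℤ) ∈ D.image Prod.snd := by
    rw [himy, mem_image]
    exact ⟨A + B - 1, by rw [mem_range]; omega, hκ.symm⟩
  obtain ⟨q0, hq0, e0⟩ := mem_image.1 hgx
  obtain ⟨q1, hq1, e1⟩ := mem_image.1 hgy
  have E0 := heq q0 hq0
  have E1 := heq q1 hq1
  have hy0 : |q0.2 - g| = 4 * k := by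
    rw [e0, show q0.2 - (g : ℤ) = q0.2 - (g : ℤ) from rfl,
      show (g : ℤ) + q0.2 - δ = q0.2 - g by omega, hw] at E0
    by_cases h4 : (4 : ℤ) ∣ (q0.2 - (g : ℤ))
    · rw [if_pos h4] at E0
      simp only [max_def, abs_eq_max_neg] at E0 ⊢
      split_ifs at E0 ⊢ <;> omega
    · rw [if_neg h4] at E0
      exfalso
      simp only [max_def, abs_eq_max_neg] at E0
      split_ifs at E0 <;> omega
  have hx1 : |q1.1 - g| = 4 * k := by
    rw [e1, show (g : ℤ) - q1.1 = -(q1.1 - g) by ring,
      show q1.1 + (g : ℤ) - δ = q1.1 - g by omega, hweven, hw] at E1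
    by_cases h4 : (4 : ℤ) ∣ (q1.1 - (g : ℤ))
    · rw [if_pos h4] at E1
      simp only [max_def, abs_eq_max_neg] at E1 ⊢
      split_ifs at E1 ⊢ <;> omega
    · rw [if_neg h4] at E1
      exfalso
      simp only [max_def, abs_eq_max_neg] at E1
      split_ifs at E1 <;> omega
  have hk0 : k = 0 := by
    by_contra hk
    have hk' : (0 : ℤ) < k := by omega
    rcases abs_eq_abs.1 (hy0.trans hx1.symm) with h' | h'
    · have := h.tinj q0 hq0 q1 hq1 (by omega)
      rw [← this, e0] at hx1
      simp at hx1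
      omega
    · have := h.sinj q0 hq0 q1 hq1 (by omega)
      rw [← this, e0] at hx1
      simp at hx1
      omega
  have hA1' : A = 1 := by omega
  subst hA1'
  have hB2 : (B : ℤ) * (B - 2) = 0 := by
    push_cast at hpell
    linarith
  rcases mul_eq_zero.1 hB2 with h' | h'
  · left; omega
  · right; omega

end Pool.Agent.Helper69.Queens
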