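import Pool.Agent.Helper95.QData

/-!
Queens domination: consequences of the positions of the queens for a symmetric exact system.
-/

set_option autoImplicit false

namespace Pool.Agent.Helper69.Queens

open Finset Pool.Agent.Helper95.Queens

lemma sum_Icc_sq (g : ℕ) (a δ : ℤ) :
    3 * ∑ x ∈ Icc (-a) (2 * (g : ℤ) - a), (2 * x - δ) ^ 2 =
      4 * (g : ℤ) * (g + 1) * (2 * g + 1) + 3 * (2 * g + 1) * (2 * g - 2 * a - δ) ^ 2 := by
  have h1 : ∑ x ∈ Icc (-a) (2 * (g : ℤ) - a), (2 * x - δ) ^ 2 =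
      ∑ i ∈ range (2 * g + 1), (2 * ((i : ℤ) - a) - δ) ^ 2 := by
    symm
    refine sum_bij (fun (i : ℕ) _ => (i : ℤ) - a) ?_ ?_ ?_ ?_
    · intro i hi
      rw [mem_range] at hi
      rw [mem_Icc]
      omega
    · intro i _ j _ h
      omega
    · intro x hx
      rw [mem_Icc] at hx
      exact ⟨(x + a).toNat, by rw [mem_range]; omega, by omega⟩
    · intro i _
      rfl
  have h2 : ∀ n : ℕ, 3 * ∑ i ∈ range n, (2 * ((i : ℤ) - a) - δ) ^ 2 =
      2 * ((n : ℤ) - 1) * n * (2 * n - 1) - 6 * (2 * a + δ) * n * (n - 1)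
        + 3 * n * (2 * a + δ) ^ 2 := by
    intro n
    induction n with
    | zero => simp
    | succ n ih =>
      rw [sum_range_succ, mul_add, ih]
      push_cast
      ring
  rw [h1, h2]
  push_cast
  ring

variable {g : ℕ} {δ a c : ℤ} {D : Finset (ℤ × ℤ)} {I J P Q : Finset ℤ}

theorem qdata_I_subset (h : QData g δ a c D I J P Q) : I ⊆ Icc (-a) (2 * (g : ℤ) - a) := by
  intro x hx
  have := h.sys.Irange x hx
  have := h.a0
  have := h.aδ
  rw [mem_Icc]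
  omega

theorem qdata_J_subset (h : QData g δ a c D I J P Q) : J ⊆ Icc (-c) (2 * (g : ℤ) - c) := by
  intro x hx
  have := h.sys.Jrange x hx
  have := h.c0
  have := h.cδ
  rw [mem_Icc]
  omega

/-- sum over the columns of the queens -/
theorem qdata_sum_x (h : QData g δ a c D I J P Q) (f : ℤ → ℤ) :
    ∑ q ∈ D, f q.1 + ∑ x ∈ I, f x = ∑ x ∈ Icc (-a) (2 * (g : ℤ) - a), f x := by
  have h1 : D.image Prod.fst = Icc (-a) (2 * (g : ℤ) - a) \ I := by
    ext x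
    rw [h.cols, mem_sdiff, mem_Icc, and_assoc]
  have h2 : Set.InjOn (Prod.fst : ℤ × ℤ → ℤ) D := fun p hp q hq e => h.xinj p hp q hq e
  rw [← sum_image (f := f) (g := (Prod.fst : ℤ × ℤ → ℤ)) h2, h1]
  exact sum_sdiff (qdata_I_subset h)

/-- sum over the rows of the queens -/
theorem qdata_sum_y (h : QData g δ a c D I J P Q) (f : ℤ → ℤ) :
    ∑ q ∈ D, f q.2 + ∑ x ∈ J, f x = ∑ x ∈ Icc (-c) (2 * (g : ℤ) - c), f x := by
  have h1 : D.image Prod.snd = Icc (-c) (2 * (g : ℤ) - c) \ J := by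
    ext x
    rw [h.rows, mem_sdiff, mem_Icc, and_assoc]
  have h2 : Set.InjOn (Prod.snd : ℤ × ℤ → ℤ) D := fun p hp q hq e => h.yinj p hp q hq e
  rw [← sum_image (f := f) (g := (Prod.snd : ℤ × ℤ → ℤ)) h2, h1]
  exact sum_sdiff (qdata_J_subset h)

theorem qdata_sum_s (h : QData g δ a c D I J P Q) (f : ℤ → ℤ) :
    ∑ q ∈ D, f (q.2 - q.1) = ∑ s ∈ P, f s := by
  have : Set.InjOn (fun p : ℤ × ℤ => p.2 - p.1) D := fun p hp q hq e => h.sinj p hp q hq e
  rw [h.Pdef, sum_image this]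

theorem qdata_sum_t (h : QData g δ a c D I J P Q) (f : ℤ → ℤ) :
    ∑ q ∈ D, f (q.1 + q.2 - δ) = ∑ s ∈ Q, f s := by
  have : Set.InjOn (fun p : ℤ × ℤ => p.1 + p.2 - δ) D := fun p hp q hq e =>
    h.tinj p hp q hq (by simp only at e; omega)
  rw [h.Qdef, sum_image this]

/-- sum of an even function over a symmetric set -/
lemma sum_symm (P : Finset ℤ) (hsym : ∀ s ∈ P, -s ∈ P) (f : ℤ → ℤ) (hf : ∀ x, f (-x) = f x)
    (h0 : f 0 = 0) : ∑ s ∈ P, f s = 2 * ∑ s ∈ pos P, f s := by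
  have h2 : ∑ s ∈ P.filter (fun s => ¬ 0 ≤ s), f s = ∑ s ∈ (P.filter (fun s => 0 ≤ s)).erase 0, f s
      := by
    refine sum_bij' (fun s _ => -s) (fun s _ => -s) ?_ ?_ ?_ ?_ ?_
    · intro s hs
      rw [mem_filter] at hs
      rw [mem_erase, mem_filter]
      exact ⟨by omega, hsym s hs.1, by omega⟩
    · intro s hs
      rw [mem_erase, mem_filter] at hs
      rw [mem_filter]
      exact ⟨hsym s hs.2.1, by omega⟩
    · intro s _; ring
    · intro s _; ring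
    · intro s _; rw [hf]
  have h4 := Finset.sum_filter_add_sum_filter_not P (fun s => 0 ≤ s) f
  rw [← h4, h2, sum_erase _ h0, two_mul]
  rfl

/-- sum over the empty lines of a symmetric system -/
lemma sum_E (S : QSys g δ I J P Q) (hQ : Q = P) (hP : ∀ s ∈ P, -s ∈ P) (f : ℤ → ℤ) :
    ∑ x ∈ J, f x = ∑ p ∈ pos P, (f p + f (δ - p)) := by
  subst hQ
  have hn : neg Q = pos Q := by
    ext w
    rw [Helper95.Queens.mem_neg, mem_pos]
    constructor
    · rintro ⟨h1, h2⟩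
      have := hP _ h1
      rw [neg_neg] at this
      exact ⟨this, h2⟩
    · rintro ⟨h1, h2⟩
      exact ⟨hP _ h1, h2⟩
  have h1 : J = pos Q ∪ (pos Q).image (fun w => δ - w) := by
    ext j
    rw [S.left2 j, hn, mem_union, mem_image]
    constructor
    · rintro (h | h)
      · exact Or.inl h
      · exact Or.inr ⟨δ - j, h, by ring⟩
    · rintro (h | ⟨w, hw, rfl⟩)
      · exact Or.inl h
      · right
        rwa [show δ - (δ - w) = w by ring]
  have h2 : Disjoint (pos Q) ((pos Q).image (fun w => δ - w)) := by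
    rw [disjoint_left]
    intro j hj hj'
    obtain ⟨w, hw, rfl⟩ := mem_image.1 hj'
    apply S.left2' (δ - w)
    rw [hn]
    exact ⟨hj, by rwa [show δ - (δ - w) = w by ring]⟩
  rw [h1, sum_union h2, sum_image (by intro x _ y _ h'; simp only at h'; omega), sum_add_distrib]

/-- the sum of squares inequality -/
theorem SQ (h : QData g δ a c D I J P Q) (hQ : Q = P) (hP : ∀ s ∈ P, -s ∈ P) (hIJ : I = J) :
    2 * (g : ℤ) * (g + 1) * (2 * g + 1) ≤ 3 * ∑ p ∈ pos P, (6 * p ^ 2 - 4 * δ * p + δ ^ 2) ∧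
    (δ = 2 * (g : ℤ) → 2 * (g : ℤ) * (g + 1) * (2 * g + 1)
      = 3 * ∑ p ∈ pos P, (6 * p ^ 2 - 4 * δ * p + δ ^ 2)) := by
  have hx := qdata_sum_x h (fun x => (2 * x - δ) ^ 2)
  have hy := qdata_sum_y h (fun x => (2 * x - δ) ^ 2)
  have hs := qdata_sum_s h (fun s => s ^ 2)
  have ht := qdata_sum_t h (fun s => s ^ 2)
  have hE := sum_E h.sys hQ hP (fun x => (2 * x - δ) ^ 2)
  rw [hQ] at ht
  rw [sum_symm P hP (fun s => s ^ 2) (fun x => by ring) (by norm_num)] at hs ht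
  have hpar : 2 * (∑ q ∈ D, (q.2 - q.1) ^ 2 + ∑ q ∈ D, (q.1 + q.2 - δ) ^ 2) =
      ∑ q ∈ D, (2 * q.1 - δ) ^ 2 + ∑ q ∈ D, (2 * q.2 - δ) ^ 2 := by
    rw [← sum_add_distrib, ← sum_add_distrib, mul_sum]
    refine sum_congr rfl (fun q _ => ?_)
    ring
  have ix := sum_Icc_sq g a δ
  have iy := sum_Icc_sq g c δ
  have hfin : 4 * ∑ p ∈ pos P, (6 * p ^ 2 - 4 * δ * p + δ ^ 2) =
      8 * ∑ p ∈ pos P, p ^ 2 + 2 * ∑ p ∈ pos P, ((2 * p - δ) ^ 2 + (2 * (δ - p) - δ) ^ 2) := by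
    rw [mul_sum, mul_sum, mul_sum, ← sum_add_distrib]
    refine sum_congr rfl (fun p _ => ?_)
    ring
  have key : 12 * ∑ p ∈ pos P, (6 * p ^ 2 - 4 * δ * p + δ ^ 2) =
      8 * (g : ℤ) * (g + 1) * (2 * g + 1) + 3 * (2 * g + 1) * (2 * g - 2 * a - δ) ^ 2
        + 3 * (2 * g + 1) * (2 * g - 2 * c - δ) ^ 2 := by
    rw [hIJ] at hx
    linarith
  constructor
  · have h1 : 0 ≤ 3 * (2 * (g : ℤ) + 1) * (2 * g - 2 * a - δ) ^ 2 := by positivity
    have h2 : 0 ≤ 3 * (2 * (g : ℤ) + 1) * (2 * g - 2 * c - δ) ^ 2 := by positivity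
    linarith
  · intro hδ
    have ha : a = 0 := by have := h.a0; have := h.aδ; omega
    have hc : c = 0 := by have := h.c0; have := h.cδ; omega
    rw [ha, hc, hδ] at key
    rw [hδ]
    have e : (2 * (g : ℤ) - 2 * 0 - 2 * g) = 0 := by ring
    rw [e] at key
    linarith

/-- a queen in an outside row lies in an inside column -/
theorem outside_row (h : QData g δ a c D I J P Q) (q : ℤ × ℤ) (hq : q ∈ D)
    (ho : q.2 < 0 ∨ δ < q.2) : 0 < q.1 ∧ q.1 < δ := by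
  have h1 : q.2 - q.1 ∈ P := by
    rw [h.Pdef]; exact mem_image_of_mem (fun p : ℤ × ℤ => p.2 - p.1) hq
  have h2 : q.1 + q.2 - δ ∈ Q := by
    rw [h.Qdef]; exact mem_image_of_mem (fun p : ℤ × ℤ => p.1 + p.2 - δ) hq
  have := h.sys.Prange _ h1
  have := h.sys.Qrange _ h2
  omega

/-- the number of queens in outside rows -/
theorem card_outside (h : QData g δ a c D I J P Q) :
    ((D.filter (fun q => q.2 < 0 ∨ δ < q.2)).card : ℤ) = 2 * g - δ := by
  have h1 : (D.filter (fun q => q.2 < 0 ∨ δ < q.2)).image Prod.snd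
      = Icc (-c) (2 * (g : ℤ) - c) \ Icc 0 δ := by
    ext y
    rw [mem_image, mem_sdiff, mem_Icc, mem_Icc]
    constructor
    · rintro ⟨q, hq, rfl⟩
      rw [mem_filter] at hq
      have := (h.rows q.2).1 (mem_image_of_mem _ hq.1)
      omega
    · rintro ⟨h1, h2⟩
      have hyJ : y ∉ J := fun hy => h2 (h.sys.Jrange y hy)
      obtain ⟨q, hq, e⟩ := mem_image.1 ((h.rows y).2 ⟨h1.1, h1.2, hyJ⟩)
      exact ⟨q, by rw [mem_filter]; exact ⟨hq, by rw [e]; omega⟩, e⟩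
  have hinj : Set.InjOn (Prod.snd : ℤ × ℤ → ℤ)
      (D.filter (fun q => q.2 < 0 ∨ δ < q.2) : Finset (ℤ × ℤ)) := by
    intro p hp q hq e
    rw [mem_coe, mem_filter] at hp hq
    exact h.yinj p hp.1 q hq.1 e
  have h2 := congrArg Finset.card h1
  have hsub : Icc 0 δ ⊆ Icc (-c) (2 * (g : ℤ) - c) := by
    intro y hy
    have := h.c0
    have := h.cδ
    rw [mem_Icc] at hy ⊢
    omega
  rw [card_image_of_injOn hinj, card_sdiff_of_subset hsub, Int.card_Icc, Int.card_Icc] at h2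
  have := h.cδ
  have := h.c0
  have := h.sys.δpos
  rw [h2]
  omega

/-- `3 g ≤ 2 δ` -/
theorem delta_lower (h : QData g δ a c D I J P Q) : 3 * (g : ℤ) ≤ 2 * δ := by
  have h1 := card_outside h
  have hinj : Set.InjOn (Prod.fst : ℤ × ℤ → ℤ)
      (D.filter (fun q => q.2 < 0 ∨ δ < q.2) : Finset (ℤ × ℤ)) := by
    intro p hp q hq e
    rw [mem_coe, mem_filter] at hp hq
    exact h.xinj p hp.1 q hq.1 e
  have hsub : (D.filter (fun q => q.2 < 0 ∨ δ < q.2)).image Prod.fst ⊆ Icc 0 δ \ I := by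
    intro x hx
    obtain ⟨q, hq, rfl⟩ := mem_image.1 hx
    rw [mem_filter] at hq
    have h2 := outside_row h q hq.1 hq.2
    have h3 := (h.cols q.1).1 (mem_image_of_mem _ hq.1)
    rw [mem_sdiff, mem_Icc]
    exact ⟨by omega, h3.2.2⟩
  have h2 := card_le_card hsub
  have hI : I ⊆ Icc 0 δ := by
    intro x hx
    rw [mem_Icc]
    exact h.sys.Irange x hx
  rw [card_image_of_injOn hinj, card_sdiff_of_subset hI, Int.card_Icc, h.sys.Icard] at h2
  have := card_le_card hI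
  rw [Int.card_Icc, h.sys.Icard] at this
  omega

/-- the geometric kill of the system `[0,N-2] ∪ {δ-N+1}` -/
theorem kill_interval (h : QData g δ a c D I J P Q) (hQ : Q = P) (hP : ∀ s ∈ P, -s ∈ P)
    (hIJ : I = J) (hδe : Even δ) (N : ℕ) (hN : 1 ≤ N) (hg : g + 1 = 2 * N)
    (hpos : ∀ w, w ∈ pos P ↔ ((0 ≤ w ∧ w ≤ (N : ℤ) - 2) ∨ w = δ - N + 1)) : False := by
  subst hQ
  have S := h.sys
  have hδ0 := S.δpos
  have hn : ∀ w, w ∈ neg Q ↔ w ∈ pos Q := by
    intro w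
    rw [Helper95.Queens.mem_neg, mem_pos]
    constructor
    · rintro ⟨h1, h2⟩
      have := hP _ h1
      rw [neg_neg] at this
      exact ⟨this, h2⟩
    · rintro ⟨h1, h2⟩
      exact ⟨hP _ h1, h2⟩
  have hmem : ∀ w, w ∈ Q → |w| ≤ (N : ℤ) - 2 ∨ |w| = δ - N + 1 := by
    intro w hw
    have h1 : |w| ∈ pos Q := by
      rw [mem_pos]
      refine ⟨?_, abs_nonneg _⟩
      rcases abs_choice w with e | e
      · rw [e]; exact hw
      · rw [e]; exact hP w hw
    rcases (hpos _).1 h1 with h2 | h2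
    · exact Or.inl h2.2
    · exact Or.inr h2
  have hJ : ∀ w, 0 ≤ w → w ≤ δ → (w ≤ (N : ℤ) - 1 ∨ δ - N + 1 ≤ w) → w ∈ J := by
    intro w h0 h1 h2
    rw [S.left2, hn, hpos, hpos]
    omega
  have hrow : ∀ q ∈ D, 0 ≤ q.2 → q.2 ≤ δ → (N : ℤ) ≤ q.2 ∧ q.2 ≤ δ - N := by
    intro q hq h0 h1
    have h2 := ((h.rows q.2).1 (mem_image_of_mem _ hq)).2.2
    by_contra hcon
    exact h2 (hJ q.2 h0 h1 (by omega))
  have hcol : ∀ q ∈ D, 0 ≤ q.1 → q.1 ≤ δ → (N : ℤ) ≤ q.1 ∧ q.1 ≤ δ - N := by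
    intro q hq h0 h1
    have h2 := ((h.cols q.1).1 (mem_image_of_mem _ hq)).2.2
    by_contra hcon
    rw [hIJ] at h2
    exact h2 (hJ q.1 h0 h1 (by omega))
  have hdm : ∀ q ∈ D, q.2 - q.1 ∈ Q := by
    intro q hq
    rw [h.Pdef]; exact mem_image_of_mem (fun p : ℤ × ℤ => p.2 - p.1) hq
  have hsm : ∀ q ∈ D, q.1 + q.2 - δ ∈ Q := by
    intro q hq
    rw [h.Qdef]; exact mem_image_of_mem (fun p : ℤ × ℤ => p.1 + p.2 - δ) hq
  have hout : ∀ q ∈ D, (q.2 < 0 ∨ δ < q.2) → 2 * q.1 = δ := by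
    intro q hq ho
    have h1 := outside_row h q hq ho
    have h2 := hcol q hq h1.1.le h1.2.le
    have h3 := hmem _ (hdm q hq)
    have h4 := hmem _ (hsm q hq)
    rw [abs_eq_max_neg, max_def] at h3 h4
    split_ifs at h3 h4 <;> omega
  have hcard := card_outside h
  have hle1 : (D.filter (fun q => q.2 < 0 ∨ δ < q.2)).card ≤ 1 := by
    rw [card_le_one]
    intro p hp q hq
    rw [mem_filter] at hp hq
    have h1 := hout p hp.1 hp.2
    have h2 := hout q hq.1 hq.2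
    exact h.xinj p hp.1 q hq.1 (by omega)
  have hδ : δ = 2 * g := by
    obtain ⟨r, hr⟩ := hδe
    omega
  have ha : a = 0 := by have := h.a0; have := h.aδ; omega
  have hc : c = 0 := by have := h.c0; have := h.cδ; omega
  have hlast : δ - (N : ℤ) + 1 ∈ Q := by
    have := (hpos (δ - N + 1)).2 (Or.inr rfl)
    exact (mem_pos.1 this).1
  rw [h.Pdef] at hlast
  obtain ⟨q, hq, e⟩ := mem_image.1 hlast
  have h1 := (h.cols q.1).1 (mem_image_of_mem _ hq)
  have h2 := (h.rows q.2).1 (mem_image_of_mem _ hq)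
  have h3 := hcol q hq (by omega) (by omega)
  have h4 := hrow q hq (by omega) (by omega)
  omega


/-- All numerical facts needed by the classification. -/
theorem glue (h : QData g δ a c D I J P Q) (hIJ : I = J) (hnP : neg P = pos P)
    (hnQ : neg Q = pos Q) (hPQ : pos P = pos Q) (N : ℕ) (hN : (pos P).card = N)
    (ev : Even δ) :
    1 ≤ N ∧ (g : ℤ) = 2 * N - 1 ∧ 6 * (N : ℤ) - 3 ≤ 2 * δ ∧ δ ≤ 4 * N - 2 ∧
    2 * (2 * (N : ℤ) - 1) * (2 * N) * (4 * N - 1)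
      ≤ 3 * ∑ p ∈ pos P, (6 * p ^ 2 - 4 * δ * p + δ ^ 2) ∧
    (δ = 4 * N - 2 → 3 * ∑ p ∈ pos P, (6 * p ^ 2 - 4 * δ * p + δ ^ 2)
      = 2 * (2 * (N : ℤ) - 1) * (2 * N) * (4 * N - 1)) ∧
    pos P ≠ (Finset.Icc 0 ((N : ℤ) - 2)) ∪ {δ - N + 1} ∧
    P = Q ∧ (∀ s ∈ P, -s ∈ P) ∧ (∀ s ∈ Q, -s ∈ Q) := by
  have symP : ∀ s ∈ P, -s ∈ P := by
    intro s hs
    rcases le_total 0 s with h0 | h0
    · have h1 : s ∈ neg P := by rw [hnP]; exact mem_pos.2 ⟨hs, h0⟩
      exact (Helper95.Queens.mem_neg.1 h1).1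
    · have h1 : -s ∈ pos P := by
        rw [← hnP]; exact Helper95.Queens.mem_neg.2 ⟨by rwa [neg_neg], by omega⟩
      exact (mem_pos.1 h1).1
  have symQ : ∀ s ∈ Q, -s ∈ Q := by
    intro s hs
    rcases le_total 0 s with h0 | h0
    · have h1 : s ∈ neg Q := by rw [hnQ]; exact mem_pos.2 ⟨hs, h0⟩
      exact (Helper95.Queens.mem_neg.1 h1).1
    · have h1 : -s ∈ pos Q := by
        rw [← hnQ]; exact Helper95.Queens.mem_neg.2 ⟨by rwa [neg_neg], by omega⟩
      exact (mem_pos.1 h1).1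
  have hQP : Q = P := by
    ext s
    rcases le_total 0 s with h0 | h0
    · have h1 : s ∈ pos P ↔ s ∈ pos Q := by rw [hPQ]
      rw [mem_pos, mem_pos] at h1
      constructor
      · intro h2; exact (h1.2 ⟨h2, h0⟩).1
      · intro h2; exact (h1.1 ⟨h2, h0⟩).1
    · have h1 : -s ∈ pos P ↔ -s ∈ pos Q := by rw [hPQ]
      rw [mem_pos, mem_pos] at h1
      constructor
      · intro h2
        have := symP _ (h1.2 ⟨symQ _ h2, by omega⟩).1
        rwa [neg_neg] at this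
      · intro h2
        have := symQ _ (h1.1 ⟨symP _ h2, by omega⟩).1
        rwa [neg_neg] at this
  have hcard := card_halves h.sys.P0 (fun _ => True) (fun _ => Iff.rfl)
  simp only [filter_true, if_true] at hcard
  rw [hnP, hN, h.sys.Pcard] at hcard
  have hN1 : 1 ≤ N := by
    rw [← hN]
    exact card_pos.2 ⟨0, mem_pos.2 ⟨h.sys.P0, le_rfl⟩⟩
  have hg : (g : ℤ) = 2 * N - 1 := by omega
  have h3 := delta_lower h
  have h4 := h.sys.δle
  obtain ⟨h5, h6⟩ := SQ h hQP symP hIJ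
  rw [hg] at h5 h6
  refine ⟨hN1, hg, by omega, by omega, ?_, ?_, ?_, hQP.symm, symP, symQ⟩
  · refine le_trans (le_of_eq ?_) h5
    ring
  · intro hd
    rw [← h6 (by omega)]
    ring
  · intro hpos
    refine kill_interval h hQP symP hIJ ev N hN1 (by omega) (fun w => ?_)
    rw [hpos, mem_union, mem_Icc, mem_singleton]

end Pool.Agent.Helper69.Queens
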